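import Pool.Agent.H33R3.Bom.Stmts

set_option autoImplicit false

namespace Pool.Agent.H805R3.BomF

open Complex Metric Set Filter Topology Pool.Agent.H33R3.Bom

theorem log_one_add_le (a : ℂ) (ha : 1 + a ≠ 0) :
    Real.log ‖1 + a‖ ≤ a.re + ‖a‖ ^ 2 / 2 := by
  have h1 : ‖1 + a‖ ^ 2 = 1 + 2 * a.re + ‖a‖ ^ 2 := by
    rw [← Complex.normSq_eq_norm_sq, ← Complex.normSq_eq_norm_sq, Complex.normSq_apply,
      Complex.normSq_apply]
    simp only [add_re, one_re, add_im, one_im]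
    ring
  have h0 : 0 < ‖1 + a‖ := norm_pos_iff.2 ha
  have h2 : Real.log (‖1 + a‖ ^ 2) ≤ ‖1 + a‖ ^ 2 - 1 := Real.log_le_sub_one_of_pos (by positivity)
  rw [Real.log_pow] at h2
  push_cast at h2
  linarith

theorem neg_log_one_add_le (b : ℂ) (hb : ‖b‖ ≤ 1 / 2) :
    -Real.log ‖1 + b‖ ≤ -b.re + ‖b‖ ^ 2 := by
  have h1 := Complex.norm_log_one_add_sub_self_le (z := b) (by linarith)
  have h2 : (log (1 + b) - b).re = Real.log ‖1 + b‖ - b.re := by
    rw [sub_re, Complex.log_re]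
  have h3 : |(log (1 + b) - b).re| ≤ ‖log (1 + b) - b‖ := Complex.abs_re_le_norm _
  have h4 : (1 - ‖b‖)⁻¹ ≤ 2 := by
    rw [inv_le_comm₀ (by linarith) (by norm_num)]; linarith
  rw [h2] at h3
  have h5 := (abs_le.1 h3).1
  have h6 : ‖b‖ ^ 2 * (1 - ‖b‖)⁻¹ / 2 ≤ ‖b‖ ^ 2 := by nlinarith [sq_nonneg ‖b‖]
  linarith

theorem G_eq {Y : ℂ → ℂ} (hY : IsG Y) {z : ℂ} (hz : z ≠ 0) : Y z / z = hh Y z + z⁻¹ - z := by
  unfold hh
  rw [dslope_of_ne _ hz, slope_def_field, hY.one]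
  field_simp
  ring

theorem fin_ineq {t e : ℝ} (he : 0 ≤ e) (ht : 0 ≤ t) (h : t ^ 2 ≤ e * t + 2 * e ^ 2) :
    t ≤ 4 * e := by
  by_contra hcon
  push Not at hcon
  nlinarith

theorem young_ineq {a b c : ℝ} (hc : 0 ≤ c) (ha : 0 ≤ a) (hb : 0 ≤ b) (h : c ≤ a + b) :
    c ^ 2 ≤ 2 * (a ^ 2 + b ^ 2) := by
  nlinarith [sq_nonneg (a - b)]

theorem taskF : TaskF := by
  intro hB hStar Y hY ζ hζ
  obtain ⟨hep, hep4, hbd⟩ := hB Y hY
  by_cases hx : ζ.re = 0
  · simp only [hx, zero_mul, abs_zero, mul_zero]; positivity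
  by_cases hy : ζ.im = 0
  · simp only [hy, mul_zero, abs_zero, zero_mul]; positivity
  have hS := hStar Y hY ζ hζ hx hy
  have hζ1 : ‖ζ‖ < 1 := by simpa using hζ
  have hζc : (starRingEnd ℂ) ζ ∈ ball (0 : ℂ) 1 := by simpa using hζ
  have hζ0 : ζ ≠ 0 := fun h => hx (by rw [h]; simp)
  have hζc0 : (starRingEnd ℂ) ζ ≠ 0 := by simpa using hζ0
  have hb1 := hbd ζ hζ
  have hb2 := hbd _ hζc
  have hG1 := G_eq hY hζ0
  have hG2 := G_eq hY hζc0
  have hnc : ‖(starRingEnd ℂ) ζ‖ = ‖ζ‖ := by simp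
  rw [hnc] at hb2
  rw [hG1, hG2] at hS
  have hqeq : ‖ζ‖ ^ 2 = ζ.re ^ 2 + ζ.im ^ 2 := by
    rw [← Complex.normSq_eq_norm_sq, Complex.normSq_apply]; ring
  set h : ℂ := hh Y ζ with hh1
  set h' : ℂ := hh Y ((starRingEnd ℂ) ζ) with hh2
  set U : ℂ := h + (starRingEnd ℂ) h' with hU
  set x := ζ.re with hxd
  set y := ζ.im with hyd
  have hq0 : 0 < ‖ζ‖ ^ 2 := by have := norm_pos_iff.2 hζ0; positivity
  have hq1 : ‖ζ‖ ^ 2 < 1 := by
    have := norm_nonneg ζ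
    nlinarith
  set q := ‖ζ‖ ^ 2 with hq
  set ε := ep Y with hε
  have hw0 : 0 < 1 - q := by linarith
  have hq0' : q ≠ 0 := hq0.ne'
  have hxy : x ^ 2 ≤ q := by rw [hqeq]; nlinarith [sq_nonneg y]
  have hyx : y ^ 2 ≤ q := by rw [hqeq]; nlinarith [sq_nonneg x]
  have hax : 0 < |x| := abs_pos.2 hx
  have hay : 0 < |y| := abs_pos.2 hy
  have hx1 : |x| ≤ 1 := by
    rw [← sq_le_one_iff₀ (abs_nonneg x), sq_abs]; linarith
  have hy1 : |y| ≤ 1 := by
    rw [← sq_le_one_iff₀ (abs_nonneg y), sq_abs]; linarith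
  -- the two ratios
  set a : ℂ := ((q / (2 * x * (1 - q)) : ℝ) : ℂ) * (h + h') with ha
  set b : ℂ := ((q / (2 * y * (1 + q)) : ℝ) : ℂ) * (I * (h - h')) with hb
  have hζr : ζ = (x : ℂ) + (y : ℂ) * I := (Complex.re_add_im ζ).symm
  have hζcr : (starRingEnd ℂ) ζ = (x : ℂ) - (y : ℂ) * I := by
    rw [hζr]; simp [sub_eq_add_neg]
  have hqc : (q : ℂ) = (x : ℂ) ^ 2 + (y : ℂ) ^ 2 := by
    rw [hqeq]; push_cast; ring
  have hqc0 : (q : ℂ) ≠ 0 := by exact_mod_cast hq0'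
  have hxc0 : (x : ℂ) ≠ 0 := by exact_mod_cast hx
  have hyc0 : (y : ℂ) ≠ 0 := by exact_mod_cast hy
  have hwc0 : (1 : ℂ) - (q : ℂ) ≠ 0 := by
    have : ((1 - q : ℝ) : ℂ) ≠ 0 := by exact_mod_cast hw0.ne'
    simpa using this
  have hwc1 : (1 : ℂ) + (q : ℂ) ≠ 0 := by
    have : ((1 + q : ℝ) : ℂ) ≠ 0 := by
      have : (1 + q : ℝ) ≠ 0 := by positivity
      exact_mod_cast this
    simpa using this
  have hinv1 : ζ⁻¹ = (starRingEnd ℂ) ζ / q := by
    rw [Complex.inv_def, Complex.normSq_eq_norm_sq, ← hq]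
    push_cast
    rw [div_eq_mul_inv]
  have hinv2 : ((starRingEnd ℂ) ζ)⁻¹ = ζ / q := by
    rw [← map_inv₀, hinv1]
    simp
  have hsum : (h + ζ⁻¹ - ζ) + (h' + ((starRingEnd ℂ) ζ)⁻¹ - (starRingEnd ℂ) ζ)
      = ((2 * x * (1 - q) / q : ℝ) : ℂ) * (1 + a) := by
    rw [hinv1, hinv2, ha]
    push_cast
    have e1 : (starRingEnd ℂ) ζ + ζ = 2 * (x : ℂ) := by rw [hζcr]; nth_rw 1 [hζr]; ring
    have e2 : h + (starRingEnd ℂ) ζ / ↑q - ζ + (h' + ζ / ↑q - (starRingEnd ℂ) ζ)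
        = (h + h') + ((starRingEnd ℂ) ζ + ζ) * (1 / q - 1) := by ring
    rw [e2, e1]
    field_simp
    ring
  have hdif : (h + ζ⁻¹ - ζ) - (h' + ((starRingEnd ℂ) ζ)⁻¹ - (starRingEnd ℂ) ζ)
      = ((2 * y * (1 + q) / q : ℝ) : ℂ) * (-I) * (1 + b) := by
    rw [hinv1, hinv2, hb]
    push_cast
    have e1 : (starRingEnd ℂ) ζ - ζ = -2 * (y : ℂ) * I := by rw [hζcr]; nth_rw 1 [hζr]; ring
    have e2 : h + (starRingEnd ℂ) ζ / ↑q - ζ - (h' + ζ / ↑q - (starRingEnd ℂ) ζ)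
        = (h - h') + ((starRingEnd ℂ) ζ - ζ) * (1 / q + 1) := by ring
    rw [e2, e1]
    field_simp
    ring_nf
    rw [Complex.I_sq]
    ring
  rw [hsum, hdif] at hS
  rw [norm_mul, norm_mul, norm_mul, Complex.norm_real, Complex.norm_real, norm_neg, Complex.norm_I,
    Real.norm_eq_abs, Real.norm_eq_abs, abs_div, abs_div, abs_mul, abs_mul, abs_mul, abs_mul,
    abs_two, abs_of_pos hw0, abs_of_pos hq0, abs_of_pos (by positivity : (0:ℝ) < 1 + q)] at hS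
  -- norms
  have hμ : ‖h + h'‖ ^ 2 * (1 - q) ≤ 4 * (ε * q) := by
    have h1 : ‖h + h'‖ ^ 2 ≤ 2 * (‖h‖ ^ 2 + ‖h'‖ ^ 2) := by
      exact young_ineq (norm_nonneg _) (norm_nonneg _) (norm_nonneg _) (norm_add_le h h')
    have h3 := mul_le_mul_of_nonneg_right h1 hw0.le
    linarith
  have hμ2 : ‖h - h'‖ ^ 2 * (1 - q) ≤ 4 * (ε * q) := by
    have h1 : ‖h - h'‖ ^ 2 ≤ 2 * (‖h‖ ^ 2 + ‖h'‖ ^ 2) := by
      exact young_ineq (norm_nonneg _) (norm_nonneg _) (norm_nonneg _) (norm_sub_le h h')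
    have h3 := mul_le_mul_of_nonneg_right h1 hw0.le
    linarith
  have hμ3 : ‖U‖ ^ 2 * (1 - q) ≤ 4 * (ε * q) := by
    have h1 : ‖U‖ ^ 2 ≤ 2 * (‖h‖ ^ 2 + ‖h'‖ ^ 2) := by
      have h2 := norm_add_le h ((starRingEnd ℂ) h')
      rw [← hU] at h2
      have h3 : ‖(starRingEnd ℂ) h'‖ = ‖h'‖ := by simp
      rw [h3] at h2
      exact young_ineq (norm_nonneg _) (norm_nonneg _) (norm_nonneg _) h2
    have h3 := mul_le_mul_of_nonneg_right h1 hw0.le
    linarith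
  have hna : ‖a‖ = q / (2 * |x| * (1 - q)) * ‖h + h'‖ := by
    rw [ha, norm_mul, Complex.norm_real, Real.norm_eq_abs, abs_div, abs_mul, abs_mul, abs_two,
      abs_of_pos hw0, abs_of_pos hq0]
  have hnb : ‖b‖ = q / (2 * |y| * (1 + q)) * ‖h - h'‖ := by
    rw [hb, norm_mul, norm_mul, Complex.norm_I, one_mul, Complex.norm_real, Real.norm_eq_abs,
      abs_div, abs_mul, abs_mul, abs_two, abs_of_pos (by positivity : (0:ℝ) < 1 + q),
      abs_of_pos hq0]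
  rw [abs_mul]
  set u := ‖U‖ with hu
  have hu0 : 0 ≤ u := norm_nonneg _
  by_cases hb2' : ‖b‖ ≤ 1 / 2
  swap
  · -- large `b`
    push Not at hb2'
    have hy2 : |y| * (1 + q) < q * ‖h - h'‖ := by
      rw [hnb, div_mul_eq_mul_div, lt_div_iff₀ (by positivity)] at hb2'
      linarith
    have hy3 : |y| < ‖h - h'‖ := by
      have := norm_nonneg (h - h')
      nlinarith
    -- `u * |y| * (1 - q) ≤ 4 ε q`
    have h4 : u * |y| * (1 - q) ≤ 4 * (ε * q) := by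
      clear_value u
      generalize ‖h - h'‖ = m at *
      have h5 : u * |y| ≤ (u ^ 2 + m ^ 2) / 2 := by
        have h6 : u * |y| ≤ u * m := mul_le_mul_of_nonneg_left hy3.le hu0
        have h7 := sq_nonneg (u - m)
        have h8 : (u - m) ^ 2 = u ^ 2 - 2 * (u * m) + m ^ 2 := by ring
        linarith
      calc u * |y| * (1 - q) ≤ (u ^ 2 + m ^ 2) / 2 * (1 - q) :=
            mul_le_mul_of_nonneg_right h5 hw0.le
        _ = (u ^ 2 * (1 - q) + m ^ 2 * (1 - q)) / 2 := by ring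
        _ ≤ 4 * (ε * q) := by linarith
    calc u * (|x| * |y|) * (1 - q) ^ 2 = (u * |y| * (1 - q)) * (|x| * (1 - q)) := by ring
      _ ≤ (4 * (ε * q)) * (|x| * (1 - q)) := by gcongr
      _ ≤ (4 * (ε * 1)) * (1 * 1) := by
          gcongr
          linarith
      _ = 4 * ε := by ring
  · have hbne : 0 < ‖1 + b‖ := by
      have h1 : ‖(1:ℂ)‖ ≤ ‖1 + b‖ + ‖b‖ := by
        calc ‖(1:ℂ)‖ = ‖(1 + b) - b‖ := by congr 1; ring
          _ ≤ _ := norm_sub_le _ _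
      rw [norm_one] at h1
      linarith
    by_cases ha0 : 1 + a = 0
    · have h5 : u ^ 2 ≤ 0 := by
        rw [ha0] at hS
        simpa using hS
      have h6 : u = 0 := by
        have := sq_nonneg u
        exact pow_eq_zero_iff (two_ne_zero) |>.1 (le_antisymm h5 this)
      rw [h6]
      simp only [zero_mul]
      positivity
    have hane : 0 < ‖1 + a‖ := norm_pos_iff.2 ha0
    have harg : (1 + q) / (1 - q) * (2 * |x| * (1 - q) / q * ‖1 + a‖ * |y| /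
        (2 * |y| * (1 + q) / q * 1 * ‖1 + b‖ * |x|)) = ‖1 + a‖ / ‖1 + b‖ := by
      field_simp
    rw [harg, Real.log_div hane.ne' hbne.ne'] at hS
    have hla := log_one_add_le a ha0
    have hlb := neg_log_one_add_le b hb2'
    have hmain : u ^ 2 ≤ ε * (a.re - b.re + ‖a‖ ^ 2 / 2 + ‖b‖ ^ 2) := by
      refine hS.trans ?_
      apply mul_le_mul_of_nonneg_left _ hep
      linarith
    have har : a.re = q / (2 * x * (1 - q)) * U.re := by
      rw [ha, Complex.re_ofReal_mul, hU]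
      simp
    have hbr : b.re = -(q / (2 * y * (1 + q)) * U.im) := by
      rw [hb, Complex.re_ofReal_mul, hU]
      simp
      ring
    have har2 : |x| * (1 - q) * a.re ≤ u / 2 := by
      have h5 : |x| * (1 - q) * |a.re| ≤ u / 2 := by
        rw [har, abs_mul, abs_div, abs_mul, abs_mul, abs_two, abs_of_pos hw0, abs_of_pos hq0]
        have h6 : |x| * (1 - q) * (q / (2 * |x| * (1 - q)) * |U.re|) = q * |U.re| / 2 := by
          field_simp
        rw [h6]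
        have := Complex.abs_re_le_norm U
        have := abs_nonneg U.re
        nlinarith
      have := le_abs_self a.re
      have h7 : |x| * (1 - q) * a.re ≤ |x| * (1 - q) * |a.re| := by gcongr
      linarith
    have hbr2 : |y| * (-b.re) ≤ u / 2 := by
      have h5 : |y| * |b.re| ≤ u / 2 := by
        rw [hbr, abs_neg, abs_mul, abs_div, abs_mul, abs_mul, abs_two,
          abs_of_pos (by positivity : (0:ℝ) < 1 + q), abs_of_pos hq0]
        have h6 : |y| * (q / (2 * |y| * (1 + q)) * |U.im|) = q / (1 + q) * |U.im| / 2 := by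
          field_simp
        rw [h6]
        have h8 : q / (1 + q) ≤ 1 := by rw [div_le_one (by positivity)]; linarith
        have := Complex.abs_im_le_norm U
        have := abs_nonneg U.im
        nlinarith
      have := neg_le_abs b.re
      have h7 : |y| * (-b.re) ≤ |y| * |b.re| := by gcongr
      linarith
    have ha2 : x ^ 2 * (1 - q) ^ 3 * ‖a‖ ^ 2 ≤ ε := by
      rw [hna, mul_pow, div_pow]
      have h6 : x ^ 2 * (1 - q) ^ 3 * (q ^ 2 / (2 * |x| * (1 - q)) ^ 2 * ‖h + h'‖ ^ 2)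
          = q ^ 2 / 4 * (‖h + h'‖ ^ 2 * (1 - q)) := by
        rw [mul_pow, mul_pow, sq_abs]
        field_simp
        ring
      rw [h6]
      calc q ^ 2 / 4 * (‖h + h'‖ ^ 2 * (1 - q)) ≤ q ^ 2 / 4 * (4 * (ε * q)) := by gcongr
        _ = ε * q ^ 3 := by ring
        _ ≤ ε * 1 := by
            gcongr
            exact pow_le_one₀ hq0.le hq1.le
        _ = ε := by ring
    have hb2 : y ^ 2 * (1 - q) * ‖b‖ ^ 2 ≤ ε := by
      rw [hnb, mul_pow, div_pow]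
      have h6 : y ^ 2 * (1 - q) * (q ^ 2 / (2 * |y| * (1 + q)) ^ 2 * ‖h - h'‖ ^ 2)
          = q ^ 2 / (4 * (1 + q) ^ 2) * (‖h - h'‖ ^ 2 * (1 - q)) := by
        rw [mul_pow, mul_pow, sq_abs]
        field_simp
        ring
      rw [h6]
      calc q ^ 2 / (4 * (1 + q) ^ 2) * (‖h - h'‖ ^ 2 * (1 - q))
          ≤ q ^ 2 / (4 * (1 + q) ^ 2) * (4 * (ε * q)) := by gcongr
        _ = ε * (q ^ 3 / (1 + q) ^ 2) := by field_simp
        _ ≤ ε * 1 := by
            gcongr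
            rw [div_le_one (by positivity)]
            have h8 : q ^ 3 ≤ 1 := pow_le_one₀ hq0.le hq1.le
            nlinarith
        _ = ε := by ring
    set W := |x| * |y| * (1 - q) ^ 2 with hW
    have hW0 : 0 < W := by positivity
    have hT : u * (|x| * |y|) * (1 - q) ^ 2 = u * W := by rw [hW]; ring
    rw [hT]
    -- the quadratic inequality
    have hw1 : 1 - q ≤ 1 := by linarith
    have t1 : W ^ 2 * a.re ≤ u * W / 2 := by
      have h5 : W ^ 2 * a.re = (W * (|y| * (1 - q))) * (|x| * (1 - q) * a.re) := by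
        rw [hW]; ring
      rw [h5]
      have h6 : |y| * (1 - q) ≤ 1 := by
        calc |y| * (1 - q) ≤ 1 * 1 := by gcongr
          _ = 1 := by norm_num
      calc (W * (|y| * (1 - q))) * (|x| * (1 - q) * a.re)
          ≤ (W * (|y| * (1 - q))) * (u / 2) := by gcongr
        _ ≤ (W * 1) * (u / 2) := by gcongr
        _ = u * W / 2 := by ring
    have t2 : W ^ 2 * (-b.re) ≤ u * W / 2 := by
      have h5 : W ^ 2 * (-b.re) = (W * (|x| * (1 - q) ^ 2)) * (|y| * (-b.re)) := by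
        rw [hW]; ring
      rw [h5]
      have h6 : |x| * (1 - q) ^ 2 ≤ 1 := by
        have : (1 - q) ^ 2 ≤ 1 := pow_le_one₀ hw0.le hw1
        calc |x| * (1 - q) ^ 2 ≤ 1 * 1 := by gcongr
          _ = 1 := by norm_num
      calc (W * (|x| * (1 - q) ^ 2)) * (|y| * (-b.re))
          ≤ (W * (|x| * (1 - q) ^ 2)) * (u / 2) := by gcongr
        _ ≤ (W * 1) * (u / 2) := by gcongr
        _ = u * W / 2 := by ring
    have hW2 : W ^ 2 = x ^ 2 * y ^ 2 * (1 - q) ^ 4 := by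
      rw [hW, mul_pow, mul_pow, sq_abs, sq_abs]; ring
    have hy21 : y ^ 2 ≤ 1 := by linarith
    have hx21 : x ^ 2 ≤ 1 := by linarith
    have t3 : W ^ 2 * (‖a‖ ^ 2 / 2) ≤ ε := by
      have h5 : W ^ 2 * (‖a‖ ^ 2 / 2) = (y ^ 2 * (1 - q) / 2) * (x ^ 2 * (1 - q) ^ 3 * ‖a‖ ^ 2) := by
        rw [hW2]; ring
      rw [h5]
      calc (y ^ 2 * (1 - q) / 2) * (x ^ 2 * (1 - q) ^ 3 * ‖a‖ ^ 2)
          ≤ (y ^ 2 * (1 - q) / 2) * ε := by gcongr
        _ ≤ (1 * 1 / 1) * ε := by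
            gcongr
            norm_num
        _ = ε := by ring
    have t4 : W ^ 2 * ‖b‖ ^ 2 ≤ ε := by
      have h5 : W ^ 2 * ‖b‖ ^ 2 = (x ^ 2 * (1 - q) ^ 3) * (y ^ 2 * (1 - q) * ‖b‖ ^ 2) := by
        rw [hW2]; ring
      rw [h5]
      calc (x ^ 2 * (1 - q) ^ 3) * (y ^ 2 * (1 - q) * ‖b‖ ^ 2)
          ≤ (x ^ 2 * (1 - q) ^ 3) * ε := by gcongr
        _ ≤ (1 * 1) * ε := by
            gcongr
            exact pow_le_one₀ hw0.le hw1
        _ = ε := by ring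
    have hfin : (u * W) ^ 2 ≤ ε * (u * W) + 2 * ε ^ 2 := by
      calc (u * W) ^ 2 = W ^ 2 * u ^ 2 := by ring
        _ ≤ W ^ 2 * (ε * (a.re - b.re + ‖a‖ ^ 2 / 2 + ‖b‖ ^ 2)) := by gcongr
        _ = ε * (W ^ 2 * a.re + W ^ 2 * (-b.re) + W ^ 2 * (‖a‖ ^ 2 / 2) + W ^ 2 * ‖b‖ ^ 2) := by
            ring
        _ ≤ ε * (u * W / 2 + u * W / 2 + ε + ε) := by gcongr
        _ = ε * (u * W) + 2 * ε ^ 2 := by ring
    have hT0 : 0 ≤ u * W := by positivity
    exact fin_ineq hep hT0 hfin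

end Pool.Agent.H805R3.BomF
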