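import Mathlib

set_option autoImplicit false

open MeasureTheory Set
open scoped ENNReal NNReal

namespace Pool.Agent.H805R3.Circ

/-- The circular maximal function `sup_{r>0} (1/2π) ∫_0^{2π} |f(x + r (cos θ, sin θ))| dθ`, with
values in `[0,∞]`. -/
noncomputable def circMax (f : ℝ × ℝ → ℂ) (x : ℝ × ℝ) : ℝ≥0∞ :=
  ⨆ (r : ℝ) (_ : 0 < r), ENNReal.ofReal (1 / (2 * Real.pi)) *
    ∫⁻ θ in Ioc (0:ℝ) (2 * Real.pi), ‖f (x.1 + r * Real.cos θ, x.2 + r * Real.sin θ)‖ₑ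

end Pool.Agent.H805R3.Circ
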