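import Mathlib

set_option autoImplicit false

open MeasureTheory Set
open scoped ENNReal NNReal

namespace Pool.Agent.H805R3.Circ

noncomputable section

/-- truncation of `t` to `j` digits in base `B` -/
def tau (B : ℕ) (j : ℕ) (t : ℝ) : ℝ := (⌊(B:ℝ)^j * t⌋ : ℝ) / (B:ℝ)^j

/-- partial sums of the intercept -/
def sb (B : ℕ) (n : ℕ) (t : ℝ) : ℝ :=
  ∑ j ∈ Finset.range n, ((j:ℝ)/B) * (tau B (j+1) t - tau B j t)

lemma tau_le {B : ℕ} (hB : 0 < B) (j : ℕ) (t : ℝ) : tau B j t ≤ t := by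
  have h : (0:ℝ) < (B:ℝ)^j := by positivity
  unfold tau
  rw [div_le_iff₀ h]
  calc (⌊(B:ℝ)^j * t⌋ : ℝ) ≤ (B:ℝ)^j * t := Int.floor_le _
    _ = t * (B:ℝ)^j := by ring

lemma lt_tau {B : ℕ} (hB : 0 < B) (j : ℕ) (t : ℝ) : t < tau B j t + 1/(B:ℝ)^j := by
  have h : (0:ℝ) < (B:ℝ)^j := by positivity
  unfold tau
  rw [← add_div, lt_div_iff₀ h]
  calc t * (B:ℝ)^j = (B:ℝ)^j * t := by ring
    _ < _ := Int.lt_floor_add_one _

lemma tau_mono {B : ℕ} (hB : 0 < B) (j : ℕ) (t : ℝ) : tau B j t ≤ tau B (j+1) t := by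
  have h : (0:ℝ) < (B:ℝ)^j := by positivity
  have hB' : (0:ℝ) < (B:ℝ) := by exact_mod_cast hB
  unfold tau
  rw [div_le_div_iff₀ h (by positivity)]
  have h1 : ((⌊(B:ℝ)^j * t⌋ * (B:ℤ) : ℤ) : ℝ) ≤ (B:ℝ)^(j+1) * t := by
    push_cast
    calc (⌊(B:ℝ)^j * t⌋ : ℝ) * B ≤ ((B:ℝ)^j * t) * B := by
          gcongr
          exact Int.floor_le _
      _ = _ := by ring
  have h2 : (⌊(B:ℝ)^j * t⌋ * (B:ℤ) : ℤ) ≤ ⌊(B:ℝ)^(j+1) * t⌋ := Int.le_floor.2 h1
  have h3 : ((⌊(B:ℝ)^j * t⌋ : ℝ) * (B:ℝ)) ≤ (⌊(B:ℝ)^(j+1) * t⌋ : ℝ) := by exact_mod_cast h2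
  calc (⌊(B:ℝ)^j * t⌋ : ℝ) * (B:ℝ)^(j+1) = ((⌊(B:ℝ)^j * t⌋ : ℝ) * (B:ℝ)) * (B:ℝ)^j := by ring
    _ ≤ _ := by gcongr

lemma tau_zero {B : ℕ} {t : ℝ} (h0 : 0 ≤ t) (h1 : t < 1) : tau B 0 t = 0 := by
  unfold tau
  have : ⌊t⌋ = 0 := by rw [Int.floor_eq_zero_iff]; exact ⟨h0, h1⟩
  simp [this]

lemma tau_tau {B : ℕ} (hB : 0 < B) {j i : ℕ} (hji : j ≤ i) (t : ℝ) :
    tau B j (tau B i t) = tau B j t := by
  have hj : (0:ℝ) < (B:ℝ)^j := by positivity
  have hi : (0:ℝ) < (B:ℝ)^i := by positivity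
  have key : ⌊(B:ℝ)^j * tau B i t⌋ = ⌊(B:ℝ)^j * t⌋ := by
    rw [Int.floor_eq_iff]
    constructor
    · have h1 : ((⌊(B:ℝ)^j * t⌋ * (B:ℤ)^(i-j) : ℤ) : ℝ) ≤ (B:ℝ)^i * t := by
        push_cast
        calc (⌊(B:ℝ)^j * t⌋ : ℝ) * (B:ℝ)^(i-j) ≤ ((B:ℝ)^j * t) * (B:ℝ)^(i-j) := by
              gcongr
              exact Int.floor_le _
          _ = ((B:ℝ)^j * (B:ℝ)^(i-j)) * t := by ring
          _ = _ := by rw [← pow_add, Nat.add_sub_cancel' hji]
      have h2 := Int.le_floor.2 h1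
      have h3 : (⌊(B:ℝ)^j * t⌋ : ℝ) * (B:ℝ)^(i-j) ≤ (⌊(B:ℝ)^i * t⌋ : ℝ) := by exact_mod_cast h2
      unfold tau
      rw [← mul_div_assoc, le_div_iff₀ hi]
      calc (⌊(B:ℝ)^j * t⌋ : ℝ) * (B:ℝ)^i
          = ((⌊(B:ℝ)^j * t⌋ : ℝ) * (B:ℝ)^(i-j)) * (B:ℝ)^j := by
            rw [mul_assoc, ← pow_add, Nat.sub_add_cancel hji]
        _ ≤ (⌊(B:ℝ)^i * t⌋ : ℝ) * (B:ℝ)^j := by gcongr
        _ = _ := by ring
    · calc (B:ℝ)^j * tau B i t ≤ (B:ℝ)^j * t := by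
            gcongr
            exact tau_le hB i t
        _ < _ := Int.lt_floor_add_one _
  conv_lhs => rw [tau]
  rw [key]
  rfl

lemma sb_sub {B : ℕ} (hB : 0 < B) (t : ℝ) (m : ℕ) : ∀ n, m ≤ n → n ≤ B →
    0 ≤ sb B n t - sb B m t ∧ sb B n t - sb B m t ≤ tau B n t - tau B m t := by
  have hB' : (0:ℝ) < (B:ℝ) := by exact_mod_cast hB
  intro n hmn
  induction n, hmn using Nat.le_induction with
  | base => intro _; simp
  | succ n hmn ih =>
    intro hn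
    obtain ⟨h1, h2⟩ := ih (by omega)
    have h3 : sb B (n+1) t = sb B n t + ((n:ℝ)/B) * (tau B (n+1) t - tau B n t) := by
      unfold sb
      rw [Finset.sum_range_succ]
    have h4 : 0 ≤ tau B (n+1) t - tau B n t := sub_nonneg.2 (tau_mono hB n t)
    have h5 : (n:ℝ)/B ≤ 1 := by
      rw [div_le_one hB']
      exact_mod_cast (by omega : n ≤ B)
    have h6 : 0 ≤ (n:ℝ)/B := by positivity
    have h7 : ((n:ℝ)/B) * (tau B (n+1) t - tau B n t) ≤ 1 * (tau B (n+1) t - tau B n t) := by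
      gcongr
    have h8 : 0 ≤ ((n:ℝ)/B) * (tau B (n+1) t - tau B n t) := mul_nonneg h6 h4
    rw [h3]
    constructor <;> linarith

lemma sb_mem {B : ℕ} (hB : 0 < B) {t : ℝ} (h0 : 0 ≤ t) (h1 : t < 1) :
    0 ≤ sb B B t ∧ sb B B t ≤ 1 := by
  obtain ⟨a, b⟩ := sb_sub hB t 0 B (Nat.zero_le _) le_rfl
  have h2 : sb B 0 t = 0 := by simp [sb]
  rw [h2, tau_zero h0 h1] at b
  rw [h2] at a
  have := tau_le hB B t
  constructor <;> linarith

/-- the part of the height at `x` determined by the first `i` digits -/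
def qf (B : ℕ) (i : ℕ) (x t : ℝ) : ℝ := x * tau B i t - sb B i t

lemma qf_tau {B : ℕ} (hB : 0 < B) (i : ℕ) (x t : ℝ) : qf B i x (tau B i t) = qf B i x t := by
  unfold qf
  rw [tau_tau hB le_rfl]
  congr 1
  unfold sb
  refine Finset.sum_congr rfl fun j hj => ?_
  have := Finset.mem_range.1 hj
  rw [tau_tau hB (by omega), tau_tau hB (by omega)]

lemma qf_close {B : ℕ} (hB : 0 < B) {i : ℕ} (hi : i < B) {x t : ℝ}
    (hx1 : (i:ℝ)/B ≤ x) (hx2 : x ≤ ((i:ℝ)+1)/B) (hx3 : x ≤ 1) :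
    |x * t - sb B B t - qf B i x t| ≤ 2/(B:ℝ)^(i+1) := by
  have hB' : (0:ℝ) < (B:ℝ) := by exact_mod_cast hB
  obtain ⟨h1, h2⟩ := sb_sub hB t (i+1) B (by omega) le_rfl
  have h3 : sb B (i+1) t = sb B i t + ((i:ℝ)/B) * (tau B (i+1) t - tau B i t) := by
    unfold sb
    rw [Finset.sum_range_succ]
  have h4 : 0 ≤ tau B (i+1) t - tau B i t := sub_nonneg.2 (tau_mono hB i t)
  have h5 := lt_tau hB i t
  have h6 := tau_le hB (i+1) t
  have h7 := lt_tau hB (i+1) t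
  have h8 := tau_le hB B t
  have h9 : 0 ≤ x - (i:ℝ)/B := by linarith
  have h10 : x - (i:ℝ)/B ≤ 1/B := by
    have : ((i:ℝ)+1)/B = (i:ℝ)/B + 1/B := by ring
    linarith
  have h11 : (x - (i:ℝ)/B) * (tau B (i+1) t - tau B i t) ≤ (1/B) * (1/(B:ℝ)^i) := by
    apply mul_le_mul h10 _ h4 (by positivity)
    linarith
  have h12 : 0 ≤ (x - (i:ℝ)/B) * (tau B (i+1) t - tau B i t) := mul_nonneg h9 h4
  have h13 : (1/(B:ℝ)) * (1/(B:ℝ)^i) = 1/(B:ℝ)^(i+1) := by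
    rw [pow_succ]; field_simp
  have h14 : 0 ≤ x := by
    have : 0 ≤ (i:ℝ)/B := by positivity
    linarith
  have h15 : 0 ≤ x * (t - tau B (i+1) t) := mul_nonneg h14 (by linarith)
  have h16 : x * (t - tau B (i+1) t) ≤ 1 * (1/(B:ℝ)^(i+1)) := by
    apply mul_le_mul hx3 _ (by linarith) zero_le_one
    linarith
  have h17 : x * t - sb B B t - qf B i x t
      = (x - (i:ℝ)/B) * (tau B (i+1) t - tau B i t) + x * (t - tau B (i+1) t)
        - (sb B B t - sb B (i+1) t) := by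
    rw [h3]; unfold qf; ring
  have h18 : (2:ℝ)/(B:ℝ)^(i+1) = 2 * (1/(B:ℝ)^(i+1)) := by ring
  have h19 : (0:ℝ) ≤ 1/(B:ℝ)^(i+1) := by positivity
  rw [h17, h18, abs_le]
  rw [h13] at h11
  constructor <;> linarith

/-- the small set: thin neighbourhoods of segments of all slopes in `[0,1)`, scaled by `ε` -/
def setE (B : ℕ) (ε : ℝ) : Set (ℝ × ℝ) :=
  ⋃ t ∈ Ico (0:ℝ) 1, {p : ℝ × ℝ | 0 < p.1 ∧ p.1 < ε ∧ |p.2 - (t * p.1 - ε * sb B B t)| < ε^2}

lemma isOpen_setE (B : ℕ) (ε : ℝ) : IsOpen (setE B ε) := by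
  unfold setE
  refine isOpen_biUnion fun t _ => ?_
  have h1 : IsOpen {p : ℝ × ℝ | 0 < p.1} := isOpen_lt continuous_const continuous_fst
  have h2 : IsOpen {p : ℝ × ℝ | p.1 < ε} := isOpen_lt continuous_fst continuous_const
  have h3 : IsOpen {p : ℝ × ℝ | |p.2 - (t * p.1 - ε * sb B B t)| < ε^2} :=
    isOpen_lt (by fun_prop) continuous_const
  have h4 : {p : ℝ × ℝ | 0 < p.1 ∧ p.1 < ε ∧ |p.2 - (t * p.1 - ε * sb B B t)| < ε^2}
      = {p : ℝ × ℝ | 0 < p.1} ∩ ({p : ℝ × ℝ | p.1 < ε} ∩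
        {p : ℝ × ℝ | |p.2 - (t * p.1 - ε * sb B B t)| < ε^2}) := by
    ext p; simp
  rw [h4]
  exact h1.inter (h2.inter h3)

lemma section_bound {B : ℕ} (hB : 0 < B) {ε : ℝ} (hε : ε = 1/(B:ℝ)^B) {u : ℝ}
    (hu0 : 0 < u) (hu1 : u < ε) :
    volume (Prod.mk u ⁻¹' (setE B ε)) ≤ ENNReal.ofReal (6 * ε / B) := by
  have hB' : (0:ℝ) < (B:ℝ) := by exact_mod_cast hB
  have hε0 : 0 < ε := by rw [hε]; positivity
  set x := u / ε with hx
  have hx0 : 0 < x := by positivity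
  have hx1 : x < 1 := by rw [hx, div_lt_one hε0]; exact hu1
  set i := ⌊(B:ℝ) * x⌋₊ with hi
  have hi1 : (i:ℝ) ≤ (B:ℝ) * x := Nat.floor_le (by positivity)
  have hi2 : (B:ℝ) * x < (i:ℝ) + 1 := Nat.lt_floor_add_one _
  have hiB : i < B := by
    rw [hi, Nat.floor_lt (by positivity)]
    nlinarith
  have hxi1 : (i:ℝ)/B ≤ x := by rw [div_le_iff₀ hB']; linarith
  have hxi2 : x ≤ ((i:ℝ)+1)/B := by rw [le_div_iff₀ hB']; linarith
  -- the cover
  have hcov : Prod.mk u ⁻¹' (setE B ε) ⊆ ⋃ m ∈ Finset.range (B^i),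
      Metric.ball (ε * qf B i x ((m:ℝ)/(B:ℝ)^i)) (3 * ε / (B:ℝ)^(i+1)) := by
    intro v hv
    simp only [setE, mem_preimage, mem_iUnion, mem_ofPred_eq] at hv
    obtain ⟨t, ht, -, -, hv⟩ := hv
    have hBi : (0:ℝ) < (B:ℝ)^i := by positivity
    have hm0 : 0 ≤ ⌊(B:ℝ)^i * t⌋ := Int.floor_nonneg.2 (mul_nonneg hBi.le ht.1)
    obtain ⟨m, hm⟩ := Int.eq_ofNat_of_zero_le hm0
    have hmlt : m < B^i := by
      have : ⌊(B:ℝ)^i * t⌋ < ((B^i : ℕ) : ℤ) := by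
        rw [Int.floor_lt]
        push_cast
        nlinarith [ht.2]
      rw [hm] at this
      exact_mod_cast this
    simp only [mem_iUnion]
    refine ⟨m, Finset.mem_range.2 hmlt, ?_⟩
    have hmt : (m:ℝ)/(B:ℝ)^i = tau B i t := by
      unfold tau
      rw [hm]
      simp
    rw [hmt, qf_tau hB, Metric.mem_ball, Real.dist_eq]
    have h1 := qf_close hB hiB (t := t) hxi1 hxi2 hx1.le
    have hux : u = ε * x := by rw [hx]; field_simp
    have h2 : v - ε * qf B i x t = (v - (t * u - ε * sb B B t))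
        + ε * (x * t - sb B B t - qf B i x t) := by
      rw [hux]; ring
    have h3 : ε^2 ≤ ε / (B:ℝ)^(i+1) := by
      have h31 : (B:ℝ)^(i+1) ≤ (B:ℝ)^B := by
        apply pow_le_pow_right₀
        · exact_mod_cast hB
        · omega
      have h32 : ε ≤ 1/(B:ℝ)^(i+1) := by
        rw [hε]
        exact one_div_le_one_div_of_le (by positivity) h31
      calc ε^2 = ε * ε := by ring
        _ ≤ ε * (1/(B:ℝ)^(i+1)) := by gcongr
        _ = _ := by ring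
    rw [h2]
    calc |v - (t * u - ε * sb B B t) + ε * (x * t - sb B B t - qf B i x t)|
        ≤ |v - (t * u - ε * sb B B t)| + |ε * (x * t - sb B B t - qf B i x t)| := abs_add_le _ _
      _ < ε^2 + ε * (2/(B:ℝ)^(i+1)) := by
          rw [abs_mul, abs_of_pos hε0]
          apply add_lt_add_of_lt_of_le hv
          gcongr
      _ ≤ ε / (B:ℝ)^(i+1) + ε * (2/(B:ℝ)^(i+1)) := by gcongr
      _ = 3 * ε / (B:ℝ)^(i+1) := by ring
  calc volume (Prod.mk u ⁻¹' (setE B ε))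
      ≤ volume (⋃ m ∈ Finset.range (B^i),
        Metric.ball (ε * qf B i x ((m:ℝ)/(B:ℝ)^i)) (3 * ε / (B:ℝ)^(i+1))) := measure_mono hcov
    _ ≤ ∑ m ∈ Finset.range (B^i),
        volume (Metric.ball (ε * qf B i x ((m:ℝ)/(B:ℝ)^i)) (3 * ε / (B:ℝ)^(i+1))) :=
        measure_biUnion_finset_le _ _
    _ = ∑ m ∈ Finset.range (B^i), ENNReal.ofReal (2 * (3 * ε / (B:ℝ)^(i+1))) := by
        refine Finset.sum_congr rfl fun m _ => ?_
        rw [Real.volume_ball]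
    _ = ENNReal.ofReal (6 * ε / B) := by
        rw [Finset.sum_const, Finset.card_range, nsmul_eq_mul, ← ENNReal.ofReal_natCast,
          ← ENNReal.ofReal_mul (by positivity)]
        congr 1
        push_cast
        rw [pow_succ]
        field_simp
        ring

lemma volume_setE {B : ℕ} (hB : 0 < B) {ε : ℝ} (hε : ε = 1/(B:ℝ)^B) :
    volume (setE B ε) ≤ ENNReal.ofReal (6 * ε^2 / B) := by
  have hB' : (0:ℝ) < (B:ℝ) := by exact_mod_cast hB
  have hε0 : 0 < ε := by rw [hε]; positivity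
  have hm : MeasurableSet (setE B ε) := (isOpen_setE B ε).measurableSet
  rw [Measure.volume_eq_prod, Measure.prod_apply hm]
  calc ∫⁻ u, volume (Prod.mk u ⁻¹' (setE B ε))
      ≤ ∫⁻ u, (Ioo (0:ℝ) ε).indicator (fun _ => ENNReal.ofReal (6 * ε / B)) u := by
        apply lintegral_mono
        intro u
        by_cases hu : u ∈ Ioo (0:ℝ) ε
        · rw [indicator_of_mem hu]
          exact section_bound hB hε hu.1 hu.2
        · have : Prod.mk u ⁻¹' (setE B ε) = ∅ := by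
            ext v
            simp only [setE, mem_preimage, mem_iUnion, mem_ofPred_eq, mem_empty_iff_false, iff_false]
            rintro ⟨t, -, h1, h2, -⟩
            exact hu ⟨h1, h2⟩
          simp [this]
    _ = ENNReal.ofReal (6 * ε / B) * volume (Ioo (0:ℝ) ε) := by
        rw [lintegral_indicator measurableSet_Ioo, setLIntegral_const]
    _ = _ := by
        rw [Real.volume_Ioo, sub_zero, ← ENNReal.ofReal_mul (by positivity)]
        congr 1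
        ring

end

end Pool.Agent.H805R3.Circ
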