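import Mathlib
import Pool.Agent.H805R3.Kak
import Pool.Agent.H805R3.CircDef

set_option autoImplicit false

open MeasureTheory Set
open scoped ENNReal NNReal

namespace Pool.Agent.H805R3.Circ

noncomputable section

/-- points of the circle near the point of tangency lie in the small set -/
lemma circle_mem {B : ℕ} (hB : 0 < B) {ε : ℝ} (hε0 : 0 < ε) (hε1 : ε ≤ 1) {t ρ φ : ℝ}
    (ht0 : 0 ≤ t) (ht1 : t < 1) (hρ1 : 1 ≤ ρ) (hρ2 : ρ ≤ 2) (hφ0 : 0 < φ) (hφ1 : φ < ε / 8) :
    (-(ρ * t) + ((ρ + ε * sb B B t / (1 + t^2)) * Real.sqrt (1 + t^2)) *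
        Real.sin (Real.arctan t + φ),
      ρ - ((ρ + ε * sb B B t / (1 + t^2)) * Real.sqrt (1 + t^2)) *
        Real.cos (Real.arctan t + φ)) ∈ setE B ε := by
  obtain ⟨hb0, hb1⟩ := sb_mem hB ht0 ht1
  set b := sb B B t with hb
  have hT : (0:ℝ) < 1 + t^2 := by positivity
  have hs : 0 < Real.sqrt (1 + t^2) := Real.sqrt_pos.2 hT
  have hss : Real.sqrt (1 + t^2) * Real.sqrt (1 + t^2) = 1 + t^2 := Real.mul_self_sqrt hT.le
  set s := Real.sqrt (1 + t^2) with hsdef
  set ρ' := ρ + ε * b / (1 + t^2) with hρ'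
  have e1 : ρ' * (1 + t^2) = ρ * (1 + t^2) + ε * b := by
    rw [hρ']; field_simp
  have hsin : s * Real.sin (Real.arctan t + φ) = t * Real.cos φ + Real.sin φ := by
    rw [Real.sin_add, Real.sin_arctan, Real.cos_arctan, ← hsdef]
    field_simp
  have hcos : s * Real.cos (Real.arctan t + φ) = Real.cos φ - t * Real.sin φ := by
    rw [Real.cos_add, Real.sin_arctan, Real.cos_arctan, ← hsdef]
    field_simp
  have hφ8 : φ < 1/8 := by linarith
  have hc1 : Real.cos φ ≤ 1 := Real.cos_le_one φ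
  have hc2 : 1 - φ^2/2 ≤ Real.cos φ := Real.one_sub_sq_div_two_le_cos
  have hs1 : Real.sin φ ≤ φ := Real.sin_le hφ0.le
  have hs2 : φ - φ^3/6 < Real.sin φ := Real.sin_gt_sub_cube hφ0
  have hρ'1 : ρ ≤ ρ' := by
    rw [hρ']
    have : 0 ≤ ε * b / (1 + t^2) := by positivity
    linarith
  have hq : ε * b / (1 + t^2) ≤ 1 := by
    rw [div_le_one hT]
    nlinarith [sq_nonneg t]
  have hρ'2 : ρ' ≤ 3 := by rw [hρ']; linarith
  have htq : t * (ρ' - ρ) ≤ ε / 2 := by
    have : ρ' - ρ = ε * b / (1 + t^2) := by rw [hρ']; ring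
    rw [this, ← mul_div_assoc, div_le_iff₀ hT]
    nlinarith [mul_nonneg hε0.le (sub_nonneg.2 hb1), sq_nonneg (1 - t), mul_nonneg ht0 hε0.le,
      mul_nonneg (mul_nonneg ht0 hε0.le) (sub_nonneg.2 hb1)]
  simp only [setE, mem_iUnion, mem_ofPred_eq]
  refine ⟨t, ⟨ht0, ht1⟩, ?_, ?_, ?_⟩
  · have e2 : -(ρ * t) + ρ' * s * Real.sin (Real.arctan t + φ)
        = -(ρ * t) + ρ' * (t * Real.cos φ + Real.sin φ) := by
      rw [mul_assoc, hsin]
    rw [e2]
    have h0 : φ^2 ≤ φ * (1/8) := by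
      rw [sq]; exact mul_le_mul_of_nonneg_left hφ8.le hφ0.le
    have h0' : φ^3 ≤ φ * (1/8) := by
      have : φ^3 = φ^2 * φ := by ring
      rw [this]
      have : φ^2 * φ ≤ φ^2 * 1 := by gcongr; linarith
      linarith
    have h1 : 0 < Real.sin φ - φ^2/2 := by linarith
    have h2 : ρ * (Real.sin φ - φ^2/2) ≤ -(ρ * t) + ρ' * (t * Real.cos φ + Real.sin φ) := by
      have hcpos : 0 ≤ Real.cos φ := by linarith
      have h3 : 0 ≤ t * Real.cos φ + Real.sin φ := by
        have := mul_nonneg ht0 hcpos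
        have : 0 ≤ φ^2/2 := by positivity
        linarith
      have h4 : ρ * (t * Real.cos φ + Real.sin φ) ≤ ρ' * (t * Real.cos φ + Real.sin φ) :=
        mul_le_mul_of_nonneg_right hρ'1 h3
      have h5 : t * (1 - φ^2/2) ≤ t * Real.cos φ := mul_le_mul_of_nonneg_left hc2 ht0
      have h6 : t * (φ^2/2) ≤ 1 * (φ^2/2) := by
        apply mul_le_mul_of_nonneg_right ht1.le (by positivity)
      have h8 : ρ * (t * (1 - φ^2/2)) ≤ ρ * (t * Real.cos φ) :=
        mul_le_mul_of_nonneg_left h5 (by linarith)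
      have h9 : ρ * (t * (φ^2/2)) ≤ ρ * (1 * (φ^2/2)) :=
        mul_le_mul_of_nonneg_left h6 (by linarith)
      linarith
    have h7 : 0 < ρ * (Real.sin φ - φ^2/2) := mul_pos (by linarith) h1
    linarith
  · have e2 : -(ρ * t) + ρ' * s * Real.sin (Real.arctan t + φ)
        = -(ρ * t) + ρ' * (t * Real.cos φ + Real.sin φ) := by
      rw [mul_assoc, hsin]
    rw [e2]
    have h1 : t * Real.cos φ ≤ t := by nlinarith
    have h2 : ρ' * (t * Real.cos φ + Real.sin φ) ≤ ρ' * (t + φ) := by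
      apply mul_le_mul_of_nonneg_left (by linarith) (by linarith)
    have h3 : ρ' * φ ≤ 3 * φ := mul_le_mul_of_nonneg_right hρ'2 hφ0.le
    have h4 : ρ' * (t + φ) = ρ * t + t * (ρ' - ρ) + ρ' * φ := by ring
    linarith
  · have e3 : ρ - ρ' * s * Real.cos (Real.arctan t + φ)
        - (t * (-(ρ * t) + ρ' * s * Real.sin (Real.arctan t + φ)) - ε * b)
        = ρ' * (1 + t^2) * (1 - Real.cos φ) := by
      have : ρ - ρ' * s * Real.cos (Real.arctan t + φ)
        - (t * (-(ρ * t) + ρ' * s * Real.sin (Real.arctan t + φ)) - ε * b)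
        = (ρ * (1 + t^2) + ε * b) - ρ' * (s * Real.cos (Real.arctan t + φ)
          + t * (s * Real.sin (Real.arctan t + φ))) := by ring
      rw [this, hsin, hcos, ← e1]
      ring
    rw [e3, abs_of_nonneg (by apply mul_nonneg (by positivity) (by linarith))]
    have h1 : ρ' * (1 + t^2) ≤ 3 * 2 := by
      apply mul_le_mul hρ'2 _ hT.le (by norm_num)
      nlinarith
    have h2 : ρ' * (1 + t^2) * (1 - Real.cos φ) ≤ (3 * 2) * (φ^2/2) := by
      apply mul_le_mul h1 (by linarith) (by linarith) (by norm_num)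
    have h3 : φ^2 < (ε/8)^2 := by
      apply pow_lt_pow_left₀ hφ1 hφ0.le (by norm_num)
    have h4 : (0:ℝ) < ε^2 := by positivity
    linarith

lemma circMax_large {B : ℕ} (hB : 0 < B) {ε : ℝ} (hε0 : 0 < ε) (hε1 : ε ≤ 1) {p : ℝ × ℝ}
    (hp1 : -1 < p.1) (hp2 : p.1 ≤ 0) (hp3 : 1 ≤ p.2) (hp4 : p.2 ≤ 2) :
    ENNReal.ofReal (ε / 60) < circMax ((setE B ε).indicator fun _ => 1) p := by
  set ρ := p.2 with hρ
  set t := -p.1 / ρ with ht
  have hρ0 : 0 < ρ := by linarith
  have ht0 : 0 ≤ t := div_nonneg (by linarith) hρ0.le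
  have ht1 : t < 1 := by rw [ht, div_lt_one hρ0]; linarith
  have hp : p.1 = -(ρ * t) := by rw [ht]; field_simp
  obtain ⟨hb0, hb1⟩ := sb_mem hB ht0 ht1
  set r := (ρ + ε * sb B B t / (1 + t^2)) * Real.sqrt (1 + t^2) with hr
  have hr0 : 0 < r := by positivity
  have hpi := Real.pi_pos
  have hat0 : 0 ≤ Real.arctan t := by
    rw [← Real.arctan_zero]; exact Real.arctan_strictMono.monotone ht0
  have hat1 : Real.arctan t < Real.pi / 4 := by
    rw [← Real.arctan_one]; exact Real.arctan_strictMono ht1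
  have hpi3 := Real.pi_gt_three
  have hpi4 := Real.pi_lt_d2
  have key : ENNReal.ofReal (ε / 8) ≤
      ∫⁻ θ in Ioc (0:ℝ) (2 * Real.pi),
        ‖(setE B ε).indicator (fun _ => (1:ℂ)) (p.1 + r * Real.cos θ, p.2 + r * Real.sin θ)‖ₑ := by
    set a := Real.pi + Real.pi / 2 + Real.arctan t with ha
    have hsub : Ioo a (a + ε / 8) ⊆ Ioc (0:ℝ) (2 * Real.pi) := by
      intro θ hθ
      constructor
      · linarith [hθ.1]
      · linarith [hθ.2]
    calc ENNReal.ofReal (ε / 8) = ∫⁻ θ in Ioo a (a + ε / 8), 1 := by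
          rw [setLIntegral_const, Real.volume_Ioo, one_mul]
          congr 1; ring
      _ ≤ ∫⁻ θ in Ioo a (a + ε / 8), ‖(setE B ε).indicator (fun _ => (1:ℂ))
            (p.1 + r * Real.cos θ, p.2 + r * Real.sin θ)‖ₑ := by
          apply setLIntegral_mono' measurableSet_Ioo
          intro θ hθ
          have h1 := circle_mem hB hε0 hε1 ht0 ht1 hp3 hp4 (φ := θ - a)
            (by linarith [hθ.1]) (by linarith [hθ.2])
          rw [← hr] at h1
          have h2 : (p.1 + r * Real.cos θ, p.2 + r * Real.sin θ)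
              = (-(ρ * t) + r * Real.sin (Real.arctan t + (θ - a)),
                ρ - r * Real.cos (Real.arctan t + (θ - a))) := by
            have e1 : θ = (Real.arctan t + (θ - a)) + Real.pi / 2 + Real.pi := by rw [ha]; ring
            have e2 : Real.cos θ = Real.sin (Real.arctan t + (θ - a)) := by
              conv_lhs => rw [e1]
              rw [Real.cos_add_pi, Real.cos_add_pi_div_two]; ring
            have e3 : Real.sin θ = - Real.cos (Real.arctan t + (θ - a)) := by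
              conv_lhs => rw [e1]
              rw [Real.sin_add_pi, Real.sin_add_pi_div_two]
            rw [e2, e3, hp]
            ext <;> simp [hρ]
            ring
          rw [h2, indicator_of_mem h1]
          simp
      _ ≤ _ := lintegral_mono_set hsub
  calc ENNReal.ofReal (ε / 60)
      < ENNReal.ofReal (1 / (2 * Real.pi)) * ENNReal.ofReal (ε / 8) := by
        rw [← ENNReal.ofReal_mul (by positivity)]
        apply (ENNReal.ofReal_lt_ofReal_iff (by positivity)).2
        rw [div_mul_div_comm, one_mul, div_lt_div_iff₀ (by norm_num) (by positivity)]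
        nlinarith
    _ ≤ ENNReal.ofReal (1 / (2 * Real.pi)) * ∫⁻ θ in Ioc (0:ℝ) (2 * Real.pi),
        ‖(setE B ε).indicator (fun _ => (1:ℂ)) (p.1 + r * Real.cos θ, p.2 + r * Real.sin θ)‖ₑ := by
        gcongr
    _ ≤ _ := by
        unfold circMax
        exact le_iSup₂ (f := fun (r : ℝ) (_ : 0 < r) => ENNReal.ofReal (1 / (2 * Real.pi)) *
          ∫⁻ θ in Ioc (0:ℝ) (2 * Real.pi), ‖(setE B ε).indicator (fun _ => (1:ℂ))
            (p.1 + r * Real.cos θ, p.2 + r * Real.sin θ)‖ₑ) r hr0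

end

end Pool.Agent.H805R3.Circ
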