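import Mathlib

set_option autoImplicit false

open MeasureTheory Set Real
open scoped ENNReal NNReal ComplexConjugate

namespace Pool.Agent.H805R3.Rough

theorem exists_omega (N : ℕ → ℕ) (hN : StrictMono N) (hN0 : ∀ j, 0 < N j) :
    ∃ ω : ℝ → ℝ, Measurable ω ∧ MemLp ω 2 (volume.restrict (Ioo (-π) π)) ∧
      (∫ θ in Ioo (-π) π, ω θ) = 0 ∧
      ∀ j, (∫ θ in Ioo (-π) π, (ω θ : ℂ) * Complex.exp (-((N j : ℂ) * θ * Complex.I)))
        = π / ((j:ℂ) + 1) := by
  have : Fact (0 < 2 * π) := ⟨Real.two_pi_pos⟩
  set c : ℤ → ℂ := fun n => Function.extend (fun j => (N j : ℤ)) (fun j : ℕ => 1/((j:ℂ)+1)) 0 n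
    with hc
  have hinj : Function.Injective (fun j => (N j : ℤ)) := by
    intro a b h
    have h' : (N a : ℤ) = N b := h
    exact hN.injective (by exact_mod_cast h')
  have hcN : ∀ j, c (N j) = 1/((j:ℂ)+1) := fun j => hinj.extend_apply _ _ j
  have hc0 : ∀ n : ℤ, n ≤ 0 → c n = 0 := by
    intro n hn
    apply Function.extend_apply'
    rintro ⟨j, hj⟩
    have := hN0 j
    have hj' : (N j : ℤ) = n := hj
    omega
  have hsum : Summable (fun n => ‖c n‖ ^ 2) := by
    rw [← hinj.summable_iff]
    · have : ((fun n => ‖c n‖ ^ 2) ∘ fun j => (N j : ℤ)) = fun j : ℕ => 1 / ((j:ℝ) + 1)^2 := by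
        funext j
        simp only [Function.comp, hcN]
        rw [norm_div, norm_one, div_pow, one_pow]
        congr 2
        have : ((j:ℂ) + 1) = (((j:ℝ) + 1 : ℝ) : ℂ) := by push_cast; rfl
        rw [this, Complex.norm_real, Real.norm_of_nonneg (by positivity)]
      rw [this]
      have h2 := (summable_nat_add_iff (f := fun n : ℕ => 1 / (n:ℝ)^2) 1).2
        (Real.summable_one_div_nat_pow.2 (by norm_num))
      simpa using h2
    · intro n hn
      have : c n = 0 := by
        apply Function.extend_apply'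
        rintro ⟨j, hj⟩
        exact hn ⟨j, hj⟩
      simp [this]
  have hmem : Memℓp c 2 := by
    apply memℓp_gen
    simpa using hsum
  set x : Lp ℂ 2 (@AddCircle.haarAddCircle (2*π) _) := fourierBasis.repr.symm ⟨c, hmem⟩ with hx
  have hcoef : ∀ n, fourierCoeff (x : AddCircle (2*π) → ℂ) n = c n := by
    intro n
    rw [← fourierBasis_repr, hx, LinearIsometryEquiv.apply_symm_apply]
  set y : ℝ → ℂ := fun θ => x (θ : AddCircle (2*π)) with hy
  have hym : Measurable y := (Lp.stronglyMeasurable x).measurable.comp AddCircle.measurable_mk'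
  have hIoo : (volume.restrict (Ioo (-π) π) : Measure ℝ) = volume.restrict (Ioc (-π) (-π + 2*π)) := by
    have : -π + 2 * π = π := by ring
    rw [this]
    exact Measure.restrict_congr_set Ioo_ae_eq_Ioc
  have hy2 : MemLp y 2 (volume.restrict (Ioo (-π) π)) := by
    have h1 : MemLp (x : AddCircle (2*π) → ℂ) 2 (volume : Measure (AddCircle (2*π))) := by
      rw [AddCircle.volume_eq_smul_haarAddCircle]
      exact (Lp.memLp x).smul_measure ENNReal.ofReal_ne_top
    rw [hIoo]
    exact h1.comp_measurePreserving (AddCircle.measurePreserving_mk (2*π) (-π))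
  have hyint : Integrable y (volume.restrict (Ioo (-π) π)) := hy2.integrable (by norm_num)
  have hA : ∀ n : ℤ, (∫ θ in Ioo (-π) π, y θ * Complex.exp (-((n : ℂ) * θ * Complex.I)))
      = 2 * π * c n := by
    intro n
    have h1 := fourierCoeff_eq_intervalIntegral (T := 2*π) (x : AddCircle (2*π) → ℂ) n (-π)
    rw [hcoef n] at h1
    rw [h1, intervalIntegral.integral_of_le (by linarith [Real.pi_pos]), ← hIoo]
    have hpi : (π : ℂ) ≠ 0 := by exact_mod_cast Real.pi_ne_zero
    rw [Complex.real_smul]
    push_cast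
    rw [← mul_assoc, mul_one_div_cancel (by simp [hpi]), one_mul]
    refine integral_congr_ae (Filter.Eventually.of_forall fun θ => ?_)
    simp only [fourier_coe_apply, smul_eq_mul, hy]
    rw [mul_comm]
    congr 2
    push_cast
    field_simp
  have hexpint : ∀ n : ℤ, Integrable (fun θ : ℝ => y θ * Complex.exp (-((n : ℂ) * θ * Complex.I)))
      (volume.restrict (Ioo (-π) π)) := by
    intro n
    refine hyint.mul_bdd (c := 1) ?_ ?_
    · exact (by fun_prop : Continuous fun θ : ℝ => Complex.exp (-((n : ℂ) * θ * Complex.I))).aestronglyMeasurable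
    · refine Filter.Eventually.of_forall fun θ => ?_
      have : -((n : ℂ) * θ * Complex.I) = ((-(n * θ) : ℝ) : ℂ) * Complex.I := by push_cast; ring
      rw [this, Complex.norm_exp_ofReal_mul_I]
  have hB : ∀ n : ℤ, (∫ θ in Ioo (-π) π, (((y θ).re : ℝ) : ℂ) * Complex.exp (-((n : ℂ) * θ * Complex.I)))
      = π * (c n + conj (c (-n))) := by
    intro n
    have h1 : ∀ θ : ℝ, (((y θ).re : ℝ) : ℂ) * Complex.exp (-((n : ℂ) * θ * Complex.I))
        = (1/2) * (y θ * Complex.exp (-((n : ℂ) * θ * Complex.I)))
          + (1/2) * conj (y θ * Complex.exp (-(((-n : ℤ) : ℂ) * θ * Complex.I))) := by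
      intro θ
      rw [map_mul, ← Complex.exp_conj, Complex.re_eq_add_conj]
      have : conj (-(((-n : ℤ) : ℂ) * θ * Complex.I)) = -((n : ℂ) * θ * Complex.I) := by
        simp
      rw [this]
      ring
    simp_rw [h1]
    rw [integral_add ((hexpint n).const_mul _), integral_const_mul, integral_const_mul, integral_conj,
      hA n, hA (-n)]
    · have h2 : conj (2 * (π:ℂ) * c (-n)) = 2 * π * conj (c (-n)) := by
        rw [map_mul, map_mul, Complex.conj_ofReal, map_ofNat]
      rw [h2]
      ring
    · exact (((LinearIsometryEquiv.integrable_comp_iff Complex.conjLIE).2 (hexpint (-n)))).const_mul _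
  refine ⟨fun θ => (y θ).re, Complex.measurable_re.comp hym, hy2.re, ?_, ?_⟩
  · have h := hB 0
    simp only [Int.cast_zero, zero_mul, neg_zero, Complex.exp_zero, mul_one] at h
    rw [hc0 0 le_rfl] at h
    simp only [map_zero, add_zero, mul_zero] at h
    have h2 : (((∫ θ in Ioo (-π) π, (y θ).re : ℝ)) : ℂ) = 0 := by
      rw [← h]; exact (integral_ofReal).symm
    exact_mod_cast h2
  · intro j
    have h := hB (N j)
    rw [hcN, hc0 _ (by omega)] at h
    simp only [Int.cast_natCast, map_zero, add_zero] at h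
    rw [h]
    ring

end Pool.Agent.H805R3.Rough
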