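import Mathlib

set_option autoImplicit false

open MeasureTheory Set Real Filter Topology
open scoped ENNReal NNReal ComplexConjugate

namespace Pool.Agent.H805R3.Rough

lemma polar_target : polarCoord.target = Ioi (0:ℝ) ×ˢ Ioo (-π) π := rfl

lemma polar_norm {r θ : ℝ} (hr : 0 < r) :
    ‖Complex.polarCoord.symm (r, θ)‖ = r := by
  rw [Complex.norm_polarCoord_symm, abs_of_pos hr]

lemma polar_arg {r θ : ℝ} (hr : 0 < r) (hθ : θ ∈ Ioo (-π) π) :
    Complex.arg (Complex.polarCoord.symm (r, θ)) = θ := by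
  rw [Complex.polarCoord_symm_apply]
  have := Complex.arg_mul_cos_add_sin_mul_I hr ⟨hθ.1, hθ.2.le⟩
  simpa using this

lemma lintegral_rad_ang {u v : ℝ → ℝ≥0∞} (hu : Measurable u) (hv : Measurable v) :
    ∫⁻ z : ℂ, u ‖z‖ * v (Complex.arg z) =
      (∫⁻ r in Ioi (0:ℝ), ENNReal.ofReal r * u r) * ∫⁻ θ in Ioo (-π) π, v θ := by
  rw [← Complex.lintegral_comp_polarCoord_symm, polar_target]
  have h1 : ∫⁻ p in Ioi (0:ℝ) ×ˢ Ioo (-π) π, ENNReal.ofReal p.1 •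
      (u ‖Complex.polarCoord.symm p‖ * v (Complex.arg (Complex.polarCoord.symm p)))
      = ∫⁻ p in Ioi (0:ℝ) ×ˢ Ioo (-π) π, (ENNReal.ofReal p.1 * u p.1) * v p.2 := by
    refine setLIntegral_congr_fun (measurableSet_Ioi.prod measurableSet_Ioo) ?_
    rintro ⟨r, θ⟩ ⟨hr, hθ⟩
    simp only
    rw [polar_norm hr, polar_arg hr hθ, smul_eq_mul, mul_assoc]
  rw [h1, Measure.volume_eq_prod, ← Measure.prod_restrict]
  exact lintegral_prod_mul (f := fun r => ENNReal.ofReal r * u r) (g := v)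
    (ENNReal.measurable_ofReal.mul hu).aemeasurable hv.aemeasurable

lemma integral_rad_ang {F : ℂ → ℂ} {u v : ℝ → ℂ}
    (h : ∀ r : ℝ, 0 < r → ∀ θ ∈ Ioo (-π) π,
      F (r * (Real.cos θ + Real.sin θ * Complex.I)) = u r * v θ) :
    ∫ z : ℂ, F z = (∫ r in Ioi (0:ℝ), r * u r) * ∫ θ in Ioo (-π) π, v θ := by
  rw [← Complex.integral_comp_polarCoord_symm, polar_target]
  have h1 : ∫ p in Ioi (0:ℝ) ×ˢ Ioo (-π) π, p.1 • F (Complex.polarCoord.symm p)
      = ∫ p in Ioi (0:ℝ) ×ˢ Ioo (-π) π, ((p.1 : ℂ) * u p.1) * v p.2 := by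
    refine setIntegral_congr_fun (measurableSet_Ioi.prod measurableSet_Ioo) ?_
    rintro ⟨r, θ⟩ ⟨hr, hθ⟩
    simp only
    rw [Complex.polarCoord_symm_apply, Complex.real_smul, h r hr θ hθ, mul_assoc]
  rw [h1, Measure.volume_eq_prod, ← Measure.prod_restrict]
  exact integral_prod_mul (f := fun r : ℝ => (r : ℂ) * u r) (g := v)

/-- the kernel `ω(arg z) / |z|²` -/
noncomputable def ker (ω : ℝ → ℝ) (z : ℂ) : ℝ := ω (Complex.arg z) / ‖z‖ ^ 2

variable {ω : ℝ → ℝ}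

lemma ker_meas (hω : Measurable ω) : Measurable (ker ω) := by
  unfold ker
  exact (hω.comp Complex.measurable_arg).div (measurable_norm.pow_const 2)

lemma ker_hom (z : ℂ) {t : ℝ} (ht : 0 < t) : ker ω (t * z) = (t ^ 2)⁻¹ * ker ω z := by
  unfold ker
  rw [Complex.arg_real_mul z ht, norm_mul, Complex.norm_real, Real.norm_of_nonneg ht.le, mul_pow]
  rw [div_eq_mul_inv, mul_inv, div_eq_mul_inv]
  ring

/-- weighted integrability of the kernel: `∫ w(|z|) |k|` finite -/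
lemma ker_int_of {p : ℕ} (hω : Measurable ω)
    (hωp : ∫⁻ θ in Ioo (-π) π, ‖ω θ‖ₑ ^ p < ⊤) {w : ℝ → ℝ≥0∞} (hw : Measurable w)
    (hwi : ∫⁻ r in Ioi (0:ℝ), ENNReal.ofReal r * (w r * (‖r ^ 2‖ₑ⁻¹) ^ p) < ⊤) :
    ∫⁻ z : ℂ, w ‖z‖ * ‖ker ω z‖ₑ ^ p < ⊤ := by
  have h1 : ∀ᵐ z : ℂ, w ‖z‖ * ‖ker ω z‖ₑ ^ p =
      (w ‖z‖ * (‖‖z‖ ^ 2‖ₑ⁻¹) ^ p) * (‖ω (Complex.arg z)‖ₑ ^ p) := by
    have h0 : ∀ᵐ z : ℂ, z ≠ 0 := by
      rw [ae_iff]
      simp
    filter_upwards [h0] with z hz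
    have hz' : ‖z‖ ^ 2 ≠ 0 := by positivity
    unfold ker
    rw [div_eq_mul_inv, enorm_mul, enorm_inv hz', mul_pow]
    ring
  rw [lintegral_congr_ae h1]
  rw [lintegral_rad_ang (u := fun r => w r * (‖r ^ 2‖ₑ⁻¹) ^ p) (v := fun θ => ‖ω θ‖ₑ ^ p)
    (by fun_prop) (by fun_prop)]
  exact ENNReal.mul_lt_top hwi hωp

lemma omega_p1 (hω2 : MemLp ω 2 (volume.restrict (Ioo (-π) π))) :
    ∫⁻ θ in Ioo (-π) π, ‖ω θ‖ₑ ^ 1 < ⊤ := by
  have := (hω2.integrable (by norm_num)).2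
  simpa [HasFiniteIntegral] using this

lemma omega_p2 (hω2 : MemLp ω 2 (volume.restrict (Ioo (-π) π))) :
    ∫⁻ θ in Ioo (-π) π, ‖ω θ‖ₑ ^ 2 < ⊤ := by
  have := lintegral_rpow_enorm_lt_top_of_eLpNorm_lt_top (by norm_num) (by norm_num) hω2.2
  simpa using this

/-- radial integrals over annuli are finite -/
lemma rad_fin (p : ℕ) {a b : ℝ} (ha : 0 < a) :
    ∫⁻ r in Ioi (0:ℝ), ENNReal.ofReal r *
      ((Icc a b).indicator (fun _ => (1:ℝ≥0∞)) r * (‖r ^ 2‖ₑ⁻¹) ^ p) < ⊤ := by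
  have h1 : ∀ r ∈ Ioi (0:ℝ), ENNReal.ofReal r *
      ((Icc a b).indicator (fun _ => (1:ℝ≥0∞)) r * (‖r ^ 2‖ₑ⁻¹) ^ p) ≤
      (Icc a b).indicator (fun _ => ENNReal.ofReal b * (‖a ^ 2‖ₑ⁻¹) ^ p) r := by
    intro r hr
    by_cases h : r ∈ Icc a b
    · rw [indicator_of_mem h, indicator_of_mem h, one_mul]
      gcongr
      · exact h.2
      · rw [Real.enorm_eq_ofReal (by positivity), Real.enorm_eq_ofReal (by positivity)]
        apply ENNReal.ofReal_le_ofReal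
        have := h.1
        gcongr
    · rw [indicator_of_notMem h, indicator_of_notMem h, zero_mul, mul_zero]
  calc _ ≤ ∫⁻ r in Ioi (0:ℝ), (Icc a b).indicator (fun _ => ENNReal.ofReal b * (‖a ^ 2‖ₑ⁻¹) ^ p) r :=
        setLIntegral_mono' measurableSet_Ioi h1
    _ ≤ ∫⁻ r, (Icc a b).indicator (fun _ => ENNReal.ofReal b * (‖a ^ 2‖ₑ⁻¹) ^ p) r :=
        setLIntegral_le_lintegral _ _
    _ = (ENNReal.ofReal b * (‖a ^ 2‖ₑ⁻¹) ^ p) * volume (Icc a b) := by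
        rw [lintegral_indicator measurableSet_Icc, setLIntegral_const]
    _ < ⊤ := by
        apply ENNReal.mul_lt_top
        · apply ENNReal.mul_lt_top ENNReal.ofReal_lt_top
          apply ENNReal.pow_lt_top
          rw [ENNReal.inv_lt_top]
          have : (0:ℝ) < a ^ 2 := by positivity
          rw [Real.enorm_eq_ofReal this.le]
          exact ENNReal.ofReal_pos.2 this
        · rw [Real.volume_Icc]; exact ENNReal.ofReal_lt_top

lemma ker_annulus (p : ℕ) (hω : Measurable ω)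
    (hωp : ∫⁻ θ in Ioo (-π) π, ‖ω θ‖ₑ ^ p < ⊤) {a b : ℝ} (ha : 0 < a) :
    ∫⁻ z in {z : ℂ | a ≤ ‖z‖ ∧ ‖z‖ ≤ b}, ‖ker ω z‖ₑ ^ p < ⊤ := by
  have h := ker_int_of hω hωp (w := (Icc a b).indicator (fun _ => (1:ℝ≥0∞)))
    (measurable_const.indicator measurableSet_Icc) (rad_fin p ha)
  have hm : MeasurableSet {z : ℂ | a ≤ ‖z‖ ∧ ‖z‖ ≤ b} :=
    (measurableSet_le measurable_const measurable_norm).inter
      (measurableSet_le measurable_norm measurable_const)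
  rw [← lintegral_indicator hm]
  refine lt_of_le_of_lt (le_of_eq (lintegral_congr fun z => ?_)) h
  by_cases hz : a ≤ ‖z‖ ∧ ‖z‖ ≤ b
  · rw [indicator_of_mem (show z ∈ {z : ℂ | a ≤ ‖z‖ ∧ ‖z‖ ≤ b} from hz),
      indicator_of_mem (show ‖z‖ ∈ Icc a b from hz), one_mul]
  · rw [indicator_of_notMem (show z ∉ {z : ℂ | a ≤ ‖z‖ ∧ ‖z‖ ≤ b} from hz),
      indicator_of_notMem (show ‖z‖ ∉ Icc a b from hz), zero_mul]

lemma ker_intOn_annulus (hω : Measurable ω) (hω2 : MemLp ω 2 (volume.restrict (Ioo (-π) π)))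
    {a b : ℝ} (ha : 0 < a) : IntegrableOn (ker ω) {z : ℂ | a ≤ ‖z‖ ∧ ‖z‖ ≤ b} := by
  refine ⟨(ker_meas hω).aestronglyMeasurable, ?_⟩
  have := ker_annulus 1 hω (omega_p1 hω2) (a := a) (b := b) ha
  simpa [HasFiniteIntegral] using this

lemma ker_sq_intOn_annulus (hω : Measurable ω) (hω2 : MemLp ω 2 (volume.restrict (Ioo (-π) π)))
    {a b : ℝ} (ha : 0 < a) : IntegrableOn (fun z => ker ω z ^ 2) {z : ℂ | a ≤ ‖z‖ ∧ ‖z‖ ≤ b} := by
  refine ⟨((ker_meas hω).pow_const 2).aestronglyMeasurable, ?_⟩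
  have := ker_annulus 2 hω (omega_p2 hω2) (a := a) (b := b) ha
  simpa [HasFiniteIntegral, enorm_pow] using this

/-- `|z| k(z)` is integrable near the origin -/
lemma ker_mul_norm_intOn (hω : Measurable ω) (hω2 : MemLp ω 2 (volume.restrict (Ioo (-π) π)))
    (δ : ℝ) : IntegrableOn (fun z => ‖z‖ * ker ω z) {z : ℂ | ‖z‖ ≤ δ} := by
  refine ⟨(measurable_norm.mul (ker_meas hω)).aestronglyMeasurable, ?_⟩
  have hm : MeasurableSet {z : ℂ | ‖z‖ ≤ δ} := measurableSet_le measurable_norm measurable_const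
  have h := ker_int_of hω (omega_p1 hω2) (w := (Iic δ).indicator (fun r => ‖r‖ₑ))
    (measurable_enorm.indicator measurableSet_Iic) ?_
  · refine lt_of_le_of_lt (le_of_eq ?_) h
    rw [← lintegral_indicator hm]
    refine lintegral_congr fun z => ?_
    by_cases hz : ‖z‖ ≤ δ
    · rw [indicator_of_mem (show z ∈ {z : ℂ | ‖z‖ ≤ δ} from hz),
        indicator_of_mem (show ‖z‖ ∈ Iic δ from hz), enorm_mul, pow_one]
    · rw [indicator_of_notMem (show z ∉ {z : ℂ | ‖z‖ ≤ δ} from hz),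
        indicator_of_notMem (show ‖z‖ ∉ Iic δ from hz), zero_mul]
  · have h1 : ∀ r ∈ Ioi (0:ℝ), ENNReal.ofReal r *
        ((Iic δ).indicator (fun r => ‖r‖ₑ) r * (‖r ^ 2‖ₑ⁻¹) ^ 1) ≤
        (Icc 0 δ).indicator (fun _ => (1:ℝ≥0∞)) r := by
      intro r hr
      have hr' : (0:ℝ) < r := hr
      by_cases h : r ∈ Iic δ
      · rw [indicator_of_mem h, indicator_of_mem (show r ∈ Icc 0 δ from ⟨hr'.le, h⟩)]
        rw [Real.enorm_eq_ofReal hr'.le, Real.enorm_eq_ofReal (by positivity), pow_one,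
          ← ENNReal.ofReal_inv_of_pos (by positivity), ← ENNReal.ofReal_mul hr'.le,
          ← ENNReal.ofReal_mul hr'.le, ← ENNReal.ofReal_one]
        apply ENNReal.ofReal_le_ofReal
        apply le_of_eq
        field_simp
      · rw [indicator_of_notMem h, zero_mul, mul_zero]
        exact zero_le
    calc _ ≤ ∫⁻ r in Ioi (0:ℝ), (Icc 0 δ).indicator (fun _ => (1:ℝ≥0∞)) r :=
          setLIntegral_mono' measurableSet_Ioi h1
      _ ≤ ∫⁻ r, (Icc 0 δ).indicator (fun _ => (1:ℝ≥0∞)) r :=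
          setLIntegral_le_lintegral _ _
      _ = volume (Icc (0:ℝ) δ) := by
          rw [lintegral_indicator measurableSet_Icc, setLIntegral_const, one_mul]
      _ < ⊤ := by rw [Real.volume_Icc]; exact ENNReal.ofReal_lt_top

/-- the kernel has integral zero against radial functions -/
lemma ker_radial_zero (hω0 : ∫ θ in Ioo (-π) π, ω θ = 0) {S : Set ℝ} (hS' : MeasurableSet S) :
    ∫ z in {z : ℂ | ‖z‖ ∈ S}, ker ω z = 0 := by
  have hS : MeasurableSet {z : ℂ | ‖z‖ ∈ S} := measurable_norm hS'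
  rw [← integral_indicator hS]
  have h1 : (((∫ z : ℂ, ({z : ℂ | ‖z‖ ∈ S}.indicator (ker ω) z)) : ℝ) : ℂ) = 0 := by
    have h0 : (((∫ z : ℂ, ({z : ℂ | ‖z‖ ∈ S}.indicator (ker ω) z)) : ℝ) : ℂ)
        = ∫ z : ℂ, (({z : ℂ | ‖z‖ ∈ S}.indicator (ker ω) z : ℝ) : ℂ) := (integral_ofReal).symm
    rw [h0]
    rw [integral_rad_ang (F := fun z => ((({z : ℂ | ‖z‖ ∈ S}.indicator (ker ω) z : ℝ)) : ℂ))
      (u := fun r => ((S.indicator (fun r => (r^2)⁻¹) r : ℝ) : ℂ)) (v := fun θ => (ω θ : ℂ))]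
    · have : ∫ θ in Ioo (-π) π, ((ω θ : ℝ) : ℂ) = ((∫ θ in Ioo (-π) π, ω θ : ℝ) : ℂ) :=
        integral_ofReal
      rw [this, hω0]
      simp
    · intro r hr θ hθ
      have e : ((r:ℂ) * (Real.cos θ + Real.sin θ * Complex.I)) = Complex.polarCoord.symm (r, θ) := by
        rw [Complex.polarCoord_symm_apply]
      rw [e]
      by_cases hrS : r ∈ S
      · rw [indicator_of_mem (by simpa [polar_norm hr, abs_of_pos hr] using hrS), indicator_of_mem hrS]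
        unfold ker
        rw [polar_norm hr, polar_arg hr hθ]
        push_cast
        field_simp
      · rw [indicator_of_notMem (by simpa [polar_norm hr, abs_of_pos hr] using hrS), indicator_of_notMem hrS]
        simp
  exact_mod_cast h1

end Pool.Agent.H805R3.Rough
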