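import Mathlib
import Pool.Agent.H805R3.Pol

set_option autoImplicit false

open MeasureTheory Set Real Filter Topology
open scoped ENNReal NNReal ComplexConjugate

namespace Pool.Agent.H805R3.Rough

variable {ω : ℝ → ℝ}

/-- The kernel times a bounded function of bounded support is integrable away from the origin. -/
lemma ker_mul_intOn (hω : Measurable ω) (hω2 : MemLp ω 2 (volume.restrict (Ioo (-π) π)))
    {f : ℂ → ℝ} (hf : Measurable f) {M R : ℝ} (hM : ∀ z, |f z| ≤ M) (hR : ∀ z, R < ‖z‖ → f z = 0)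
    (x : ℂ) {δ : ℝ} (hδ : 0 < δ) :
    IntegrableOn (fun y => ker ω y * f (x - y)) {y : ℂ | δ < ‖y‖} := by
  have hM0 : 0 ≤ M := (abs_nonneg _).trans (hM 0)
  have h1 : IntegrableOn (ker ω) {z : ℂ | δ ≤ ‖z‖ ∧ ‖z‖ ≤ R + ‖x‖} :=
    ker_intOn_annulus hω hω2 hδ
  have hm : MeasurableSet {z : ℂ | δ ≤ ‖z‖ ∧ ‖z‖ ≤ R + ‖x‖} :=
    (measurableSet_le measurable_const measurable_norm).inter
      (measurableSet_le measurable_norm measurable_const)
  have hfm : Measurable (fun y => f (x - y)) := hf.comp (measurable_const.sub measurable_id)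
  have h2 : IntegrableOn (fun y => ker ω y * f (x - y)) {z : ℂ | δ ≤ ‖z‖ ∧ ‖z‖ ≤ R + ‖x‖} := by
    refine Integrable.mul_bdd (c := M) h1 hfm.aestronglyMeasurable ?_
    exact Eventually.of_forall fun y => by rw [Real.norm_eq_abs]; exact hM _
  have hm2 : MeasurableSet {y : ℂ | δ < ‖y‖} := measurableSet_lt measurable_const measurable_norm
  have h3 := h2.integrable_indicator hm
  refine (h3.integrableOn (s := {y : ℂ | δ < ‖y‖})).congr_fun ?_ hm2
  intro y hy
  have hy' : δ < ‖y‖ := hy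
  by_cases h : ‖y‖ ≤ R + ‖x‖
  · rw [indicator_of_mem (show y ∈ {z : ℂ | δ ≤ ‖z‖ ∧ ‖z‖ ≤ R + ‖x‖} from ⟨hy'.le, h⟩)]
  · rw [indicator_of_notMem (fun h' => h h'.2)]
    have : f (x - y) = 0 := by
      apply hR
      push Not at h
      have := norm_sub_norm_le y x
      rw [norm_sub_rev]
      linarith
    simp [this]

/-- principal values exist at points where `f` is Lipschitz -/
lemma pv_exists (hω : Measurable ω) (hω2 : MemLp ω 2 (volume.restrict (Ioo (-π) π)))
    (hω0 : ∫ θ in Ioo (-π) π, ω θ = 0)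
    {f : ℂ → ℝ} (hf : Measurable f) {M R : ℝ} (hM : ∀ z, |f z| ≤ M) (hR : ∀ z, R < ‖z‖ → f z = 0)
    (x : ℂ) {δ L : ℝ} (hδ : 0 < δ) (hL : ∀ y, ‖y‖ ≤ δ → |f (x - y) - f x| ≤ L * ‖y‖) :
    ∃ l : ℝ, Tendsto (fun ε : ℝ => ∫ y in {y : ℂ | ε < ‖y‖}, ker ω y * f (x - y))
      (𝓝[>] 0) (𝓝 l) := by
  have hL0 : 0 ≤ L * δ := by
    have := hL (δ : ℂ) (by rw [Complex.norm_real, Real.norm_of_nonneg hδ.le])
    rw [Complex.norm_real, Real.norm_of_nonneg hδ.le] at this
    exact (abs_nonneg _).trans this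
  have hL1 : 0 ≤ L := by
    by_contra h
    push Not at h
    nlinarith
  have hfm : Measurable (fun y => f (x - y)) := hf.comp (measurable_const.sub measurable_id)
  set G : ℂ → ℝ := fun y => ({y : ℂ | ‖y‖ ≤ δ}).indicator (fun y => ker ω y * (f (x - y) - f x)) y
    with hG
  have hmδ : MeasurableSet {y : ℂ | ‖y‖ ≤ δ} := measurableSet_le measurable_norm measurable_const
  have hGm : Measurable G :=
    ((ker_meas hω).mul (hfm.sub measurable_const)).indicator hmδ
  have hGb : Integrable (fun y => ({y : ℂ | ‖y‖ ≤ δ}).indicator (fun z => ‖z‖ * ker ω z) y) :=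
    (ker_mul_norm_intOn hω hω2 δ).integrable_indicator hmδ
  have hGi : Integrable G := by
    refine Integrable.mono' (hGb.norm.const_mul L) hGm.aestronglyMeasurable ?_
    refine Eventually.of_forall fun y => ?_
    by_cases hy : y ∈ {y : ℂ | ‖y‖ ≤ δ}
    · rw [hG]
      simp only
      rw [indicator_of_mem hy, indicator_of_mem hy, norm_mul, norm_mul, norm_norm]
      have h1 := hL y hy
      rw [Real.norm_eq_abs, Real.norm_eq_abs]
      calc |ker ω y| * |f (x - y) - f x| ≤ |ker ω y| * (L * ‖y‖) := by gcongr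
        _ = _ := by ring
    · rw [hG]
      simp only
      rw [indicator_of_notMem hy, indicator_of_notMem hy]
      simp
  -- the tail
  have hT := ker_mul_intOn hω hω2 hf hM hR x hδ
  set A := ∫ y in {y : ℂ | δ < ‖y‖}, ker ω y * f (x - y) with hA
  have hkey : ∀ᶠ ε in 𝓝[>] (0:ℝ), (∫ y in {y : ℂ | ε < ‖y‖}, ker ω y * f (x - y))
      = (∫ y, ({y : ℂ | ε < ‖y‖}).indicator G y) + A := by
    have hev : ∀ᶠ ε in 𝓝[>] (0:ℝ), ε < δ :=
      eventually_nhdsWithin_of_eventually_nhds (eventually_lt_nhds hδ)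
    filter_upwards [hev, self_mem_nhdsWithin] with ε hε hε0
    have hε0' : (0:ℝ) < ε := hε0
    have hsplit : {y : ℂ | ε < ‖y‖} = {y : ℂ | ‖y‖ ∈ Ioc ε δ} ∪ {y : ℂ | δ < ‖y‖} := by
      ext y
      simp only [mem_ofPred_eq, mem_union, mem_Ioc]
      constructor
      · intro h
        by_cases h' : ‖y‖ ≤ δ
        · exact Or.inl ⟨h, h'⟩
        · exact Or.inr (not_le.1 h')
      · rintro (h | h)
        · exact h.1
        · exact hε.trans h
    have hm1 : MeasurableSet {y : ℂ | ‖y‖ ∈ Ioc ε δ} := measurable_norm measurableSet_Ioc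
    have hm2 : MeasurableSet {y : ℂ | δ < ‖y‖} := measurableSet_lt measurable_const measurable_norm
    have hdisj : Disjoint {y : ℂ | ‖y‖ ∈ Ioc ε δ} {y : ℂ | δ < ‖y‖} := by
      rw [Set.disjoint_left]
      intro y h1 h2
      exact absurd h1.2 (not_le.2 h2)
    have hi := ker_mul_intOn hω hω2 hf hM hR x hε0'
    have hi1 : IntegrableOn (fun y => ker ω y * f (x - y)) {y : ℂ | ‖y‖ ∈ Ioc ε δ} :=
      hi.mono_set fun y hy => hy.1
    have hk1 : IntegrableOn (ker ω) {y : ℂ | ‖y‖ ∈ Ioc ε δ} :=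
      (ker_intOn_annulus hω hω2 (b := δ) hε0').mono_set fun y hy => ⟨hy.1.le, hy.2⟩
    rw [hsplit, setIntegral_union hdisj hm2 hi1 hT]
    congr 1
    have h0 := ker_radial_zero (ω := ω) hω0 (S := Ioc ε δ) measurableSet_Ioc
    have h1 : ∫ y in {y : ℂ | ‖y‖ ∈ Ioc ε δ}, ker ω y * f (x - y)
        = ∫ y in {y : ℂ | ‖y‖ ∈ Ioc ε δ}, ker ω y * (f (x - y) - f x) := by
      have : ∫ y in {y : ℂ | ‖y‖ ∈ Ioc ε δ}, ker ω y * (f (x - y) - f x)
          = ∫ y in {y : ℂ | ‖y‖ ∈ Ioc ε δ}, (ker ω y * f (x - y) - ker ω y * f x) := by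
        congr 1; funext y; ring
      rw [this, integral_sub hi1 (hk1.mul_const _), integral_mul_const, h0]
      ring
    rw [h1, ← hsplit]
    rw [← integral_indicator hm1]
    congr 1
    funext y
    rw [hG]
    by_cases hy1 : ε < ‖y‖
    · rw [indicator_of_mem (show y ∈ {y : ℂ | ε < ‖y‖} from hy1)]
      by_cases hy2 : ‖y‖ ≤ δ
      · rw [indicator_of_mem (show y ∈ {y : ℂ | ‖y‖ ∈ Ioc ε δ} from ⟨hy1, hy2⟩)]
        rw [indicator_of_mem (show y ∈ {y : ℂ | ‖y‖ ≤ δ} from hy2)]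
      · rw [indicator_of_notMem (show y ∉ {y : ℂ | ‖y‖ ∈ Ioc ε δ} from fun h => hy2 h.2)]
        rw [indicator_of_notMem (show y ∉ {y : ℂ | ‖y‖ ≤ δ} from hy2)]
    · rw [indicator_of_notMem (show y ∉ {y : ℂ | ε < ‖y‖} from hy1),
        indicator_of_notMem (show y ∉ {y : ℂ | ‖y‖ ∈ Ioc ε δ} from fun h => hy1 h.1)]
  have hlim : Tendsto (fun ε : ℝ => ∫ y, ({y : ℂ | ε < ‖y‖}).indicator G y) (𝓝[>] 0)
      (𝓝 (∫ y, G y)) := by
    refine tendsto_integral_filter_of_dominated_convergence (fun y => ‖G y‖) ?_ ?_ hGi.norm ?_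
    · refine Eventually.of_forall fun ε => ?_
      exact (hGm.indicator (measurableSet_lt measurable_const measurable_norm)).aestronglyMeasurable
    · refine Eventually.of_forall fun ε => Eventually.of_forall fun y => ?_
      exact norm_indicator_le_norm_self _ _
    · have h0 : ∀ᵐ z : ℂ, z ≠ 0 := by
        rw [ae_iff]
        simp
      filter_upwards [h0] with y hy
      refine tendsto_const_nhds.congr' ?_
      have : ∀ᶠ ε in 𝓝[>] (0:ℝ), ε < ‖y‖ :=
        eventually_nhdsWithin_of_eventually_nhds (eventually_lt_nhds (norm_pos_iff.2 hy))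
      filter_upwards [this] with ε hε
      rw [indicator_of_mem (show y ∈ {y : ℂ | ε < ‖y‖} from hε)]
  refine ⟨(∫ y, G y) + A, ?_⟩
  exact (hlim.add_const A).congr' (hkey.mono fun ε h => h.symm)

end Pool.Agent.H805R3.Rough
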