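import Mathlib
import Pool.Agent.H805R3.Pol

set_option autoImplicit false

open MeasureTheory Set Real Filter Topology
open scoped ENNReal NNReal ComplexConjugate

namespace Pool.Agent.H805R3.Rough

variable {ω : ℝ → ℝ}

/-- the test function: `3` on `|x| < 1/2`, `-1` on `1/2 ≤ |x| < 1`, `0` elsewhere -/
noncomputable def tf (x : ℂ) : ℝ :=
  (Metric.ball (0:ℂ) (1/2)).indicator (fun _ => 4) x - (Metric.ball (0:ℂ) 1).indicator (fun _ => 1) x

lemma tf_meas : Measurable tf :=
  (measurable_const.indicator measurableSet_ball).sub (measurable_const.indicator measurableSet_ball)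

lemma tf_supp {x : ℂ} (hx : 1 ≤ ‖x‖) : tf x = 0 := by
  unfold tf
  rw [indicator_of_notMem, indicator_of_notMem]
  · simp
  · simpa using hx
  · simp only [Metric.mem_ball, dist_zero_right, not_lt]; linarith

lemma tf_bound (x : ℂ) : |tf x| ≤ 3 := by
  unfold tf
  by_cases h1 : x ∈ Metric.ball (0:ℂ) (1/2)
  · have h2 : x ∈ Metric.ball (0:ℂ) 1 := Metric.ball_subset_ball (by norm_num) h1
    rw [indicator_of_mem h1, indicator_of_mem h2]; norm_num
  · by_cases h2 : x ∈ Metric.ball (0:ℂ) 1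
    · rw [indicator_of_notMem h1, indicator_of_mem h2]; norm_num
    · rw [indicator_of_notMem h1, indicator_of_notMem h2]; norm_num

lemma tf_eq (x : ℂ) : tf x = (if ‖x‖ < 1/2 then 4 else 0) - (if ‖x‖ < 1 then 1 else 0) := by
  unfold tf
  congr 1
  · by_cases h : ‖x‖ < 1/2
    · rw [indicator_of_mem (mem_ball_zero_iff.2 h), if_pos h]
    · rw [indicator_of_notMem (fun h' => h (mem_ball_zero_iff.1 h')), if_neg h]
  · by_cases h : ‖x‖ < 1
    · rw [indicator_of_mem (mem_ball_zero_iff.2 h), if_pos h]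
    · rw [indicator_of_notMem (fun h' => h (mem_ball_zero_iff.1 h')), if_neg h]

lemma tf_norm {x y : ℂ} (h : ‖x‖ = ‖y‖) : tf x = tf y := by
  rw [tf_eq, tf_eq, h]

lemma ball_fin (r : ℝ) : volume (Metric.ball (0:ℂ) r) < ⊤ := measure_ball_lt_top

lemma ind_int (r c : ℝ) : Integrable (fun x => (Metric.ball (0:ℂ) r).indicator (fun _ => c) x) :=
  (integrableOn_const (ball_fin r).ne).integrable_indicator measurableSet_ball

lemma tf_int : Integrable tf := (ind_int _ _).sub (ind_int _ _)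

lemma tf_intOn (s : Set ℂ) : IntegrableOn tf s := tf_int.integrableOn

lemma tf_zero : ∫ x, tf x = 0 := by
  unfold tf
  rw [integral_sub (ind_int _ _) (ind_int _ _), integral_indicator measurableSet_ball,
    integral_indicator measurableSet_ball, setIntegral_const, setIntegral_const]
  unfold Measure.real
  rw [Complex.volume_ball, Complex.volume_ball]
  simp only [smul_eq_mul, ENNReal.toReal_mul, ENNReal.toReal_pow]
  rw [ENNReal.toReal_ofReal (by norm_num), ENNReal.toReal_ofReal (by norm_num)]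
  norm_num
  ring

/-- the truncated character `(w̄/|w|)^N` on the annulus `2N ≤ |w| ≤ 4N` -/
noncomputable def fc (N : ℕ) (w : ℂ) : ℂ :=
  {w : ℂ | ‖w‖ ∈ Icc (2 * (N:ℝ)) (4 * N)}.indicator (fun w => (conj w / ‖w‖) ^ N) w

lemma ann_meas (N : ℕ) : MeasurableSet {w : ℂ | ‖w‖ ∈ Icc (2 * (N:ℝ)) (4 * N)} :=
  measurable_norm measurableSet_Icc

lemma fc_meas (N : ℕ) : Measurable (fc N) := by
  unfold fc
  refine Measurable.indicator ?_ (ann_meas N)
  have h1 : Measurable (fun w : ℂ => conj w) := Complex.continuous_conj.measurable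
  have h2 : Measurable (fun w : ℂ => ((‖w‖ : ℝ) : ℂ)) := Complex.measurable_ofReal.comp measurable_norm
  exact (h1.div h2).pow_const N

lemma fc_norm (N : ℕ) (w : ℂ) : ‖fc N w‖ ≤ 1 := by
  unfold fc
  by_cases h : w ∈ {w : ℂ | ‖w‖ ∈ Icc (2 * (N:ℝ)) (4 * N)}
  · rw [indicator_of_mem h, norm_pow, norm_div, RCLike.norm_conj, Complex.norm_real, norm_norm]
    apply pow_le_one₀ (by positivity)
    exact div_self_le_one _
  · rw [indicator_of_notMem h]; simp

lemma fc_supp {N : ℕ} {w : ℂ} (h : ‖w‖ ∉ Icc (2 * (N:ℝ)) (4 * N)) : fc N w = 0 :=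
  indicator_of_notMem (by simpa using h) _

/-- the rotation factor -/
lemma fc_rot (N : ℕ) {e : ℂ} (he : ‖e‖ = 1) (w : ℂ) : fc N (e * w) = conj e ^ N * fc N w := by
  unfold fc
  have h0 : ‖e * w‖ = ‖w‖ := by rw [norm_mul, he, one_mul]
  by_cases h : w ∈ {w : ℂ | ‖w‖ ∈ Icc (2 * (N:ℝ)) (4 * N)}
  · have h' : e * w ∈ {w : ℂ | ‖w‖ ∈ Icc (2 * (N:ℝ)) (4 * N)} := by
      simp only [mem_ofPred_eq, h0]; exact h
    rw [indicator_of_mem h, indicator_of_mem h', h0, map_mul, mul_div_assoc, mul_pow]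
  · have h' : e * w ∉ {w : ℂ | ‖w‖ ∈ Icc (2 * (N:ℝ)) (4 * N)} := by
      simp only [mem_ofPred_eq, h0]; exact h
    rw [indicator_of_notMem h, indicator_of_notMem h', mul_zero]

noncomputable def psi (N : ℕ) (z : ℂ) : ℂ := ∫ x, (tf x : ℂ) * fc N (x - z)

/-- multiplication by a unimodular number preserves Lebesgue measure -/
lemma rot_mp {e : ℂ} (he : ‖e‖ = 1) : MeasurePreserving (fun x : ℂ => e * x) volume volume := by
  have := (rotation (⟨e, mem_sphere_zero_iff_norm.2 he⟩ : Circle)).measurePreserving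
  exact this

lemma psi_rot (N : ℕ) {e : ℂ} (he : ‖e‖ = 1) (z : ℂ) : psi N (e * z) = conj e ^ N * psi N z := by
  unfold psi
  have h1 := (rot_mp he).integral_comp (Homeomorph.mulLeft₀ e (by
    intro h; rw [h] at he; simp at he)).measurableEmbedding (fun x => (tf x : ℂ) * fc N (x - e * z))
  rw [← h1, ← integral_const_mul]
  congr 1
  funext x
  have h2 : tf (e * x) = tf x := tf_norm (by rw [norm_mul, he, one_mul])
  rw [h2, ← mul_sub, fc_rot N he]
  ring

/-- the reference kernel -/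
noncomputable def rk (N : ℕ) (y : ℂ) : ℂ := (y / ‖y‖) ^ N / (‖y‖ ^ 2 : ℝ)

lemma pairing (N : ℕ) :
    ∫ y, (ker ω y : ℂ) * psi N y =
      ((∫ θ in Ioo (-π) π, (ω θ : ℂ) * Complex.exp (-((N : ℂ) * θ * Complex.I))) / (2 * π)) *
        ∫ y, rk N y * psi N y := by
  have hpol : ∀ r : ℝ, 0 < r → ∀ θ ∈ Ioo (-π) π,
      ‖((r:ℂ) * (Real.cos θ + Real.sin θ * Complex.I))‖ = r ∧
      Complex.arg ((r:ℂ) * (Real.cos θ + Real.sin θ * Complex.I)) = θ ∧
      (r:ℂ) * (Real.cos θ + Real.sin θ * Complex.I) = Complex.exp (θ * Complex.I) * r := by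
    intro r hr θ hθ
    have e : ((r:ℂ) * (Real.cos θ + Real.sin θ * Complex.I)) = Complex.polarCoord.symm (r, θ) := by
      rw [Complex.polarCoord_symm_apply]
    refine ⟨?_, ?_, ?_⟩
    · rw [e]; exact polar_norm hr
    · rw [e]; exact polar_arg hr hθ
    · rw [Complex.exp_mul_I, Complex.ofReal_cos, Complex.ofReal_sin]; ring
  have hexp : ∀ θ : ℝ, ‖Complex.exp (θ * Complex.I)‖ = 1 := fun θ => Complex.norm_exp_ofReal_mul_I θ
  have hconj : ∀ θ : ℝ, conj (Complex.exp (θ * Complex.I)) = Complex.exp (-(θ * Complex.I)) := by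
    intro θ
    rw [← Complex.exp_conj, map_mul, Complex.conj_ofReal, Complex.conj_I]
    congr 1; ring
  rw [integral_rad_ang (F := fun y => (ker ω y : ℂ) * psi N y)
    (u := fun r => ((r^2 : ℝ) : ℂ)⁻¹ * psi N r)
    (v := fun θ => (ω θ : ℂ) * Complex.exp (-((N : ℂ) * θ * Complex.I)))]
  rw [integral_rad_ang (F := fun y => rk N y * psi N y)
    (u := fun r => ((r^2 : ℝ) : ℂ)⁻¹ * psi N r)
    (v := fun θ => 1)]
  · have h1 : ∫ θ in Ioo (-π) π, (1:ℂ) = 2 * π := by
      rw [setIntegral_const]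
      unfold Measure.real
      rw [Real.volume_Ioo, ENNReal.toReal_ofReal (by linarith [Real.pi_pos])]
      rw [Complex.real_smul, mul_one]
      push_cast; ring
    rw [h1]
    have hpi : (π : ℂ) ≠ 0 := by exact_mod_cast Real.pi_ne_zero
    rw [div_mul_eq_mul_div, eq_div_iff (by simp [hpi])]
    ring
  · intro r hr θ hθ
    obtain ⟨h1, h2, h3⟩ := hpol r hr θ hθ
    have h4 : psi N ((r:ℂ) * (Real.cos θ + Real.sin θ * Complex.I))
        = Complex.exp (-(θ * Complex.I)) ^ N * psi N r := by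
      rw [h3, psi_rot N (hexp θ), hconj]
    rw [h4]
    unfold rk
    rw [h1, h3]
    have hr' : (r:ℂ) ≠ 0 := by exact_mod_cast hr.ne'
    rw [mul_div_assoc, div_self hr', mul_one, div_eq_mul_inv]
    have h5 : Complex.exp (θ * Complex.I) ^ N * Complex.exp (-(θ * Complex.I)) ^ N = 1 := by
      rw [← mul_pow, ← Complex.exp_add]; simp
    calc Complex.exp (θ * Complex.I) ^ N * ((r^2 : ℝ) : ℂ)⁻¹ *
          (Complex.exp (-(θ * Complex.I)) ^ N * psi N r)
        = (Complex.exp (θ * Complex.I) ^ N * Complex.exp (-(θ * Complex.I)) ^ N) *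
            (((r^2 : ℝ) : ℂ)⁻¹ * psi N r) := by ring
      _ = _ := by rw [h5]; ring
  · intro r hr θ hθ
    obtain ⟨h1, h2, h3⟩ := hpol r hr θ hθ
    have h4 : psi N ((r:ℂ) * (Real.cos θ + Real.sin θ * Complex.I))
        = Complex.exp (-(θ * Complex.I)) ^ N * psi N r := by
      rw [h3, psi_rot N (hexp θ), hconj]
    rw [h4]
    unfold ker
    rw [h1, h2]
    rw [← Complex.exp_nat_mul]
    have : (N:ℂ) * -(θ * Complex.I) = -((N : ℂ) * θ * Complex.I) := by ring
    rw [this]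
    push_cast
    ring

end Pool.Agent.H805R3.Rough
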