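import Mathlib
import Pool.Agent.H805R3.Pair

set_option autoImplicit false

open MeasureTheory Set Real Filter Topology
open scoped ENNReal NNReal ComplexConjugate

namespace Pool.Agent.H805R3.Rough

noncomputable def annA : Set ℂ := {u : ℂ | ‖u‖ ∈ Icc (2:ℝ) 4}

lemma annA_meas : MeasurableSet annA := measurable_norm measurableSet_Icc

lemma annA_fin : volume annA < ⊤ := by
  refine lt_of_le_of_lt (measure_mono (t := Metric.closedBall (0:ℂ) 4) ?_) measure_closedBall_lt_top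
  intro u hu
  simpa using hu.2

/-- the dominating function -/
noncomputable def domF (p : ℂ × ℂ) : ℝ :=
  (3 * (Metric.ball (0:ℂ) 1).indicator (fun _ => (1:ℝ)) p.1) * annA.indicator (fun _ => (1:ℝ)) p.2

lemma domF_int : Integrable domF (volume.prod volume) := by
  have h1 : Integrable (fun x : ℂ => 3 * (Metric.ball (0:ℂ) 1).indicator (fun _ => (1:ℝ)) x) :=
    (ind_int 1 1).const_mul 3
  have h2 : Integrable (fun x : ℂ => annA.indicator (fun _ => (1:ℝ)) x) :=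
    (integrableOn_const annA_fin.ne).integrable_indicator annA_meas
  exact h1.mul_prod h2

noncomputable def JN (N : ℕ) (p : ℂ × ℂ) : ℂ :=
  (tf p.1 : ℂ) * ((N:ℂ)^2 * rk N (p.1 - N * p.2) * fc N (N * p.2))

lemma rk_meas (N : ℕ) : Measurable (rk N) := by
  unfold rk
  have h2 : Measurable (fun w : ℂ => ((‖w‖ : ℝ) : ℂ)) := Complex.measurable_ofReal.comp measurable_norm
  have h3 : Measurable (fun w : ℂ => ((‖w‖ ^ 2 : ℝ) : ℂ)) :=
    Complex.measurable_ofReal.comp (measurable_norm.pow_const 2)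
  exact ((measurable_id.div h2).pow_const N).div h3

lemma JN_meas (N : ℕ) : Measurable (JN N) := by
  unfold JN
  have h1 : Measurable (fun p : ℂ × ℂ => (tf p.1 : ℂ)) :=
    Complex.measurable_ofReal.comp (tf_meas.comp measurable_fst)
  have h2 : Measurable (fun p : ℂ × ℂ => rk N (p.1 - N * p.2)) :=
    (rk_meas N).comp (measurable_fst.sub (measurable_snd.const_mul _))
  have h3 : Measurable (fun p : ℂ × ℂ => fc N (N * p.2)) :=
    (fc_meas N).comp (measurable_snd.const_mul _)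
  exact h1.mul ((h2.const_mul _).mul h3)

lemma rk_norm (N : ℕ) (y : ℂ) : ‖rk N y‖ ≤ 1 / ‖y‖ ^ 2 := by
  unfold rk
  rw [norm_div, norm_pow, norm_div, Complex.norm_real, Complex.norm_real, norm_norm,
    Real.norm_of_nonneg (by positivity : (0:ℝ) ≤ ‖y‖ ^ 2)]
  gcongr
  exact pow_le_one₀ (by positivity) (div_self_le_one _)

lemma JN_bound {N : ℕ} (hN : 1 ≤ N) (p : ℂ × ℂ) : ‖JN N p‖ ≤ domF p := by
  obtain ⟨x, u⟩ := p
  have hN' : (1:ℝ) ≤ (N:ℝ) := by exact_mod_cast hN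
  unfold JN domF
  simp only
  by_cases hx : x ∈ Metric.ball (0:ℂ) 1
  swap
  · have : tf x = 0 := tf_supp (by simpa using hx)
    rw [this, indicator_of_notMem hx]
    simp
  by_cases hu : u ∈ annA
  swap
  · have h1 : fc N (N * u) = 0 := by
      apply fc_supp
      intro h
      apply hu
      rw [norm_mul, Complex.norm_natCast] at h
      have h2 : (N:ℝ) * 2 ≤ N * ‖u‖ := by linarith [h.1]
      have h3 : (N:ℝ) * ‖u‖ ≤ N * 4 := by linarith [h.2]
      have hpos : (0:ℝ) < N := by linarith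
      exact ⟨le_of_mul_le_mul_left h2 hpos, le_of_mul_le_mul_left h3 hpos⟩
    rw [h1, indicator_of_notMem hu]
    simp
  rw [indicator_of_mem hx, indicator_of_mem hu, mul_one, mul_one]
  have hx1 : ‖x‖ < 1 := by simpa using hx
  have hu1 : (2:ℝ) ≤ ‖u‖ := hu.1
  have h1 : (N:ℝ) ≤ ‖x - N * u‖ := by
    have h2 := norm_sub_norm_le (N * u) x
    rw [norm_sub_rev] at h2
    rw [norm_mul, Complex.norm_natCast] at h2
    nlinarith
  have h2 : ‖rk N (x - N * u)‖ ≤ 1 / (N:ℝ)^2 := by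
    refine (rk_norm N _).trans ?_
    gcongr
  rw [norm_mul, norm_mul, norm_mul, norm_pow, Complex.norm_real, Complex.norm_natCast]
  have h3 := tf_bound x
  have h4 := fc_norm N (N * u)
  calc ‖tf x‖ * ((N:ℝ)^2 * ‖rk N (x - N * u)‖ * ‖fc N (N * u)‖)
      ≤ 3 * ((N:ℝ)^2 * (1 / (N:ℝ)^2) * 1) := by
        rw [Real.norm_eq_abs]
        gcongr
    _ = 3 := by field_simp

lemma JN_int {N : ℕ} (hN : 1 ≤ N) : Integrable (JN N) (volume.prod volume) :=
  domF_int.mono' (JN_meas N).aestronglyMeasurable (Eventually.of_forall (JN_bound hN))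

/-- the limit -/
noncomputable def Jinf (p : ℂ × ℂ) : ℂ :=
  (tf p.1 : ℂ) * annA.indicator (fun u =>
    (Complex.exp (-(p.1 / u)) / ‖Complex.exp (-(p.1 / u))‖) / (‖u‖ ^ 2 : ℝ)) p.2

lemma JN_formula {m : ℕ} (hm : 1 ≤ m) {x u : ℂ} (_hx : ‖x‖ < 1) (hu : u ∈ annA) :
    JN (2 * m) (x, u) = (tf x : ℂ) *
      (((1 + (-(x/u)) / ((2 * m : ℕ) : ℂ)) ^ (2 * m) /
        ‖(1 + (-(x/u)) / ((2 * m : ℕ) : ℂ)) ^ (2 * m)‖)
        / ((‖u‖ ^ 2 * ‖1 + (-(x/u)) / ((2 * m : ℕ) : ℂ)‖ ^ 2 : ℝ) : ℂ)) := by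
  set N : ℕ := 2 * m with hN
  have hN1 : 1 ≤ N := by omega
  have hNr : (0:ℝ) < (N:ℝ) := by exact_mod_cast hN1
  have hNc : (N:ℂ) ≠ 0 := by exact_mod_cast hNr.ne'
  have hu0 : u ≠ 0 := by
    intro h
    have := hu.1
    rw [h] at this
    simp at this
    linarith
  have hun : (‖u‖:ℂ) ≠ 0 := by simpa using hu0
  set q : ℂ := 1 + (-(x/u)) / (N:ℂ) with hq
  have e1 : x - N * u = -(N * u * q) := by
    rw [hq]; field_simp; ring
  have hmem : (N:ℂ) * u ∈ {w : ℂ | ‖w‖ ∈ Icc (2 * (N:ℝ)) (4 * N)} := by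
    simp only [mem_ofPred_eq, norm_mul, Complex.norm_natCast, mem_Icc]
    have h1 := hu.1
    have h2 := hu.2
    constructor <;> nlinarith
  unfold JN
  simp only
  congr 1
  rw [fc, indicator_of_mem hmem, rk, e1, norm_neg, norm_mul, norm_mul, Complex.norm_natCast,
    map_mul, Complex.conj_natCast]
  push_cast
  have hev : Even N := by rw [hN]; exact even_two_mul m
  have e2 : (-(N * u * q) / ((N:ℂ) * ‖u‖ * ‖q‖)) ^ N
      = (u / ‖u‖) ^ N * (q ^ N / ‖q‖ ^ N) := by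
    rw [neg_div, hev.neg_pow]
    rw [← div_pow, ← mul_pow]
    congr 1
    field_simp
  have e3 : ((N:ℂ) * conj u / ((N:ℂ) * ‖u‖)) ^ N = (conj u / ‖u‖) ^ N := by
    congr 1
    field_simp
  rw [e2, e3]
  have e4 : (u / ‖u‖) ^ N * (conj u / ‖u‖) ^ N = 1 := by
    rw [← mul_pow]
    have : u / ‖u‖ * (conj u / ‖u‖) = 1 := by
      rw [div_mul_div_comm, Complex.mul_conj, Complex.normSq_eq_norm_sq]
      push_cast
      field_simp
    rw [this, one_pow]
  rw [norm_pow]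
  push_cast
  calc (N:ℂ)^2 * ((u / ‖u‖) ^ N * (q ^ N / ‖q‖ ^ N) / ((N:ℂ) * ‖u‖ * ‖q‖) ^ 2) *
        (conj u / ‖u‖) ^ N
      = ((u / ‖u‖) ^ N * (conj u / ‖u‖) ^ N) * (q ^ N / ‖q‖ ^ N) *
          ((N:ℂ)^2 / ((N:ℂ) * ‖u‖ * ‖q‖) ^ 2) := by ring
    _ = (q ^ N / ‖q‖ ^ N) * (1 / ((‖u‖:ℂ)^2 * ‖q‖^2)) := by
        rw [e4, one_mul]
        congr 1
        rw [mul_assoc, mul_pow, mul_pow, div_mul_eq_div_div, div_self (pow_ne_zero 2 hNc)]
    _ = _ := by ring

lemma JN_tendsto (p : ℂ × ℂ) : Tendsto (fun m : ℕ => JN (2 * (m + 1)) p) atTop (𝓝 (Jinf p)) := by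
  obtain ⟨x, u⟩ := p
  by_cases hx : ‖x‖ < 1
  swap
  · have h0 : tf x = 0 := tf_supp (not_lt.1 hx)
    have h1 : Jinf (x, u) = 0 := by unfold Jinf; simp [h0]
    have h2 : ∀ m : ℕ, JN (2 * (m+1)) (x, u) = 0 := by intro m; unfold JN; simp [h0]
    simp only [h1, h2]
    exact tendsto_const_nhds
  by_cases hu : u ∈ annA
  swap
  · have h1 : Jinf (x, u) = 0 := by unfold Jinf; simp [hu]
    have h2 : ∀ m : ℕ, JN (2 * (m+1)) (x, u) = 0 := by
      intro m
      have h3 := JN_bound (N := 2 * (m+1)) (by omega) (x, u)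
      have h4 : domF (x, u) = 0 := by unfold domF; simp [hu]
      rw [h4] at h3
      exact norm_le_zero_iff.1 h3
    simp only [h1, h2]
    exact tendsto_const_nhds
  have h2 : ∀ m : ℕ, JN (2 * (m+1)) (x, u) = _ := fun m => JN_formula (m := m+1) (by omega) hx hu
  simp only [h2]
  have h3 : Jinf (x, u) = (tf x : ℂ) * ((Complex.exp (-(x / u)) / ‖Complex.exp (-(x / u))‖) /
      ((‖u‖ ^ 2 * ‖(1:ℂ)‖ ^ 2 : ℝ) : ℂ)) := by
    unfold Jinf
    rw [indicator_of_mem hu]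
    simp
  rw [h3]
  have hsub : Tendsto (fun m : ℕ => 2 * (m+1)) atTop atTop := by
    refine tendsto_atTop_mono (fun m => ?_) tendsto_id
    simp only [id]; omega
  have hz : Tendsto (fun n : ℕ => (1 + (-(x/u)) / (n:ℂ)) ^ n) atTop (𝓝 (Complex.exp (-(x/u)))) :=
    Complex.tendsto_one_add_div_pow_exp _
  have hz' := hz.comp hsub
  have hone : Tendsto (fun n : ℕ => 1 + (-(x/u)) / (n:ℂ)) atTop (𝓝 1) := by
    have : Tendsto (fun n : ℕ => (-(x/u)) / (n:ℂ)) atTop (𝓝 0) :=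
      tendsto_const_div_atTop_nhds_zero_nat _
    simpa using this.const_add 1
  have hone' := hone.comp hsub
  have hu0 : u ≠ 0 := by
    intro h
    have := hu.1
    rw [h] at this
    simp at this
    linarith
  refine Tendsto.const_mul _ (Tendsto.div (Tendsto.div hz' ?_ ?_) ?_ ?_)
  · exact (Complex.continuous_ofReal.tendsto _).comp hz'.norm
  · simp
  · refine (Complex.continuous_ofReal.tendsto _).comp ?_
    exact (hone'.norm.pow 2).const_mul _
  · simp [hu0]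

theorem gamma_tendsto : Tendsto (fun m : ℕ => ∫ p, JN (2 * (m + 1)) p ∂(volume.prod volume)) atTop
    (𝓝 (∫ p, Jinf p ∂(volume.prod volume))) := by
  refine tendsto_integral_of_dominated_convergence domF ?_ domF_int ?_ ?_
  · intro m; exact (JN_meas _).aestronglyMeasurable
  · intro m; exact Eventually.of_forall (JN_bound (by omega))
  · exact Eventually.of_forall JN_tendsto

end Pool.Agent.H805R3.Rough
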