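import Mathlib
import Pool.Agent.H805R3.Gam

set_option autoImplicit false

open MeasureTheory Set Real Filter Topology
open scoped ENNReal NNReal ComplexConjugate

namespace Pool.Agent.H805R3.Rough

lemma Jinf_re (p : ℂ × ℂ) : (Jinf p).re =
    tf p.1 * annA.indicator (fun u => Real.cos ((p.1 / u).im) / ‖u‖ ^ 2) p.2 := by
  obtain ⟨x, u⟩ := p
  unfold Jinf
  simp only
  rw [Complex.re_ofReal_mul]
  congr 1
  by_cases hu : u ∈ annA
  · rw [indicator_of_mem hu, indicator_of_mem hu, Complex.div_ofReal_re, Complex.div_ofReal_re,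
      Complex.norm_exp, Complex.exp_re]
    rw [Complex.neg_im, Real.cos_neg]
    congr 1
    rw [mul_div_assoc, mul_comm, div_mul_cancel₀]
    exact (Real.exp_pos _).ne'
  · rw [indicator_of_notMem hu, indicator_of_notMem hu]; simp

lemma Jinf_bound (p : ℂ × ℂ) : ‖Jinf p‖ ≤ domF p := by
  have h := JN_tendsto p
  exact le_of_tendsto h.norm (Eventually.of_forall fun m => JN_bound (by omega) p)

lemma Jinf_aesm : AEStronglyMeasurable Jinf ((volume : Measure ℂ).prod (volume : Measure ℂ)) := by
  have h : ∀ p, Tendsto (fun m : ℕ => JN (2 * (m + 1)) p) atTop (𝓝 (Jinf p)) := JN_tendsto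
  exact aestronglyMeasurable_of_tendsto_ae atTop (fun m => (JN_meas _).aestronglyMeasurable)
    (Eventually.of_forall h)

lemma Jinf_int : Integrable Jinf ((volume : Measure ℂ).prod (volume : Measure ℂ)) :=
  domF_int.mono' Jinf_aesm (Eventually.of_forall Jinf_bound)

/-- the inner integral -/
noncomputable def innerP (u : ℂ) : ℝ := ∫ x : ℂ, tf x * Real.cos ((x / u).im)

lemma innerP_eq (u : ℂ) : innerP u =
    ∫ x in Metric.ball (0:ℂ) (1/2), 4 * (Real.cos ((x / u).im) - Real.cos (2 * (x / u).im)) := by
  have hc1 : Continuous (fun x : ℂ => Real.cos ((x / u).im)) := by fun_prop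
  have hc2 : Continuous (fun x : ℂ => Real.cos (2 * (x / u).im)) := by fun_prop
  have hb : ∀ r : ℝ, IntegrableOn (fun x : ℂ => Real.cos ((x / u).im)) (Metric.ball (0:ℂ) r) := by
    intro r
    refine Integrable.mono' (integrableOn_const (C := (1:ℝ)) (ball_fin r).ne)
      hc1.aestronglyMeasurable (Eventually.of_forall fun x => ?_)
    rw [Real.norm_eq_abs]; exact Real.abs_cos_le_one _
  have hb2 : ∀ r : ℝ, IntegrableOn (fun x : ℂ => Real.cos (2 * (x / u).im)) (Metric.ball (0:ℂ) r) := by
    intro r
    refine Integrable.mono' (integrableOn_const (C := (1:ℝ)) (ball_fin r).ne)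
      hc2.aestronglyMeasurable (Eventually.of_forall fun x => ?_)
    rw [Real.norm_eq_abs]; exact Real.abs_cos_le_one _
  have h1 : innerP u = 4 * (∫ x in Metric.ball (0:ℂ) (1/2), Real.cos ((x / u).im))
      - ∫ x in Metric.ball (0:ℂ) 1, Real.cos ((x / u).im) := by
    unfold innerP
    have : ∀ x : ℂ, tf x * Real.cos ((x / u).im)
        = 4 * (Metric.ball (0:ℂ) (1/2)).indicator (fun x => Real.cos ((x / u).im)) x
          - (Metric.ball (0:ℂ) 1).indicator (fun x => Real.cos ((x / u).im)) x := by
      intro x
      unfold tf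
      by_cases h1 : x ∈ Metric.ball (0:ℂ) (1/2)
      · have h2 : x ∈ Metric.ball (0:ℂ) 1 := Metric.ball_subset_ball (by norm_num) h1
        rw [indicator_of_mem h1, indicator_of_mem h2, indicator_of_mem h1, indicator_of_mem h2]
        ring
      · by_cases h2 : x ∈ Metric.ball (0:ℂ) 1
        · rw [indicator_of_notMem h1, indicator_of_mem h2, indicator_of_notMem h1,
            indicator_of_mem h2]; ring
        · rw [indicator_of_notMem h1, indicator_of_notMem h2, indicator_of_notMem h1,
            indicator_of_notMem h2]; ring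
    simp_rw [this]
    rw [integral_sub (((hb _).integrable_indicator measurableSet_ball).const_mul 4)
      ((hb _).integrable_indicator measurableSet_ball), integral_const_mul,
      integral_indicator measurableSet_ball, integral_indicator measurableSet_ball]
  have h2 : ∫ x in Metric.ball (0:ℂ) 1, Real.cos ((x / u).im)
      = 4 * ∫ x in Metric.ball (0:ℂ) (1/2), Real.cos (2 * (x / u).im) := by
    have h3 := Measure.integral_comp_smul (volume : Measure ℂ)
      (fun x => (Metric.ball (0:ℂ) 1).indicator (fun x => Real.cos ((x / u).im)) x) (2:ℝ)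
    rw [Complex.finrank_real_complex, integral_indicator measurableSet_ball] at h3
    have h4 : ∀ x : ℂ, (Metric.ball (0:ℂ) 1).indicator (fun x => Real.cos ((x / u).im)) ((2:ℝ) • x)
        = (Metric.ball (0:ℂ) (1/2)).indicator (fun x => Real.cos (2 * (x / u).im)) x := by
      intro x
      have hn : ‖(2:ℝ) • x‖ = 2 * ‖x‖ := by rw [norm_smul]; norm_num
      by_cases hx : x ∈ Metric.ball (0:ℂ) (1/2)
      · have hx' : (2:ℝ) • x ∈ Metric.ball (0:ℂ) 1 := by
          rw [mem_ball_zero_iff] at hx ⊢
          rw [hn]; linarith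
        rw [indicator_of_mem hx, indicator_of_mem hx']
        congr 1
        rw [Complex.real_smul, mul_div_assoc, Complex.im_ofReal_mul]
      · have hx' : (2:ℝ) • x ∉ Metric.ball (0:ℂ) 1 := by
          rw [mem_ball_zero_iff] at hx ⊢
          rw [hn]; linarith
        rw [indicator_of_notMem hx, indicator_of_notMem hx']
    simp_rw [h4] at h3
    rw [integral_indicator measurableSet_ball] at h3
    rw [h3]
    norm_num
    ring
  rw [h1, h2, integral_const_mul, integral_sub (hb _) (hb2 _)]
  ring

lemma cos_diff {s : ℝ} (hs : |s| ≤ 1/2) : 0 ≤ Real.cos s - Real.cos (2 * s) ∧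
    (s ≠ 0 → 0 < Real.cos s - Real.cos (2 * s)) := by
  have e : Real.cos s - Real.cos (2 * s) = (1 - Real.cos s) * (1 + 2 * Real.cos s) := by
    rw [Real.cos_two_mul]; ring
  have h1 : Real.cos s ≤ 1 := Real.cos_le_one s
  have h2 : 1 - s^2/2 ≤ Real.cos s := Real.one_sub_sq_div_two_le_cos
  have h3 : s^2 ≤ 1/4 := by
    rw [← sq_abs]; nlinarith [abs_nonneg s]
  rw [e]
  constructor
  · apply mul_nonneg <;> linarith
  · intro hs0
    apply mul_pos _ (by linarith)
    have : Real.cos s < 1 := by
      rcases lt_or_gt_of_ne hs0 with h | h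
      · have := Real.cos_lt_cos_of_nonneg_of_le_pi (x := 0) (y := -s) le_rfl
          (by have := abs_le.1 hs; linarith [Real.pi_gt_three]) (by linarith)
        rwa [Real.cos_zero, Real.cos_neg] at this
      · have := Real.cos_lt_cos_of_nonneg_of_le_pi (x := 0) (y := s) le_rfl
          (by have := abs_le.1 hs; linarith [Real.pi_gt_three]) h
        rwa [Real.cos_zero] at this
    linarith

lemma innerP_pos {u : ℂ} (hu : u ∈ annA) : 0 < innerP u := by
  have hu1 : (2:ℝ) ≤ ‖u‖ := hu.1
  have hu0 : u ≠ 0 := by
    intro h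
    rw [h] at hu1
    simp at hu1
    linarith
  rw [innerP_eq]
  have hs : ∀ x ∈ Metric.ball (0:ℂ) (1/2), |(x / u).im| ≤ 1/2 := by
    intro x hx
    rw [mem_ball_zero_iff] at hx
    calc |(x/u).im| ≤ ‖x/u‖ := Complex.abs_im_le_norm _
      _ = ‖x‖/‖u‖ := norm_div _ _
      _ ≤ (1/2)/1 := by gcongr; linarith
      _ = 1/2 := by norm_num
  have hc : Continuous (fun x : ℂ => 4 * (Real.cos ((x / u).im) - Real.cos (2 * (x / u).im))) := by
    fun_prop
  rw [setIntegral_pos_iff_support_of_nonneg_ae]
  · -- the support contains an open nonempty set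
    have hopen : IsOpen (Metric.ball (0:ℂ) (1/2) ∩ {x : ℂ | (x/u).im ≠ 0}) := by
      apply Metric.isOpen_ball.inter
      exact isOpen_ne_fun (by fun_prop) continuous_const
    have hne : (Metric.ball (0:ℂ) (1/2) ∩ {x : ℂ | (x/u).im ≠ 0}).Nonempty := by
      refine ⟨((1 / (4 * ‖u‖) : ℝ) : ℂ) * Complex.I * u, ?_, ?_⟩
      · rw [mem_ball_zero_iff, norm_mul, norm_mul, Complex.norm_I, mul_one, Complex.norm_real,
          Real.norm_of_nonneg (by positivity)]
        have : (0:ℝ) < ‖u‖ := by linarith
        field_simp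
        norm_num
      · simp only [mem_ofPred_eq]
        rw [mul_div_assoc, div_self hu0, mul_one, Complex.im_ofReal_mul, Complex.I_im, mul_one]
        have : (0:ℝ) < ‖u‖ := by linarith
        positivity
    refine lt_of_lt_of_le (hopen.measure_pos volume hne) (measure_mono ?_)
    rintro x ⟨hx1, hx2⟩
    refine ⟨?_, hx1⟩
    rw [Function.mem_support]
    have := (cos_diff (hs x hx1)).2 hx2
    positivity
  · filter_upwards [ae_restrict_mem measurableSet_ball] with x hx
    have := (cos_diff (hs x hx)).1
    simp only [Pi.zero_apply]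
    linarith
  · refine Integrable.mono' (integrableOn_const (C := (8:ℝ)) (ball_fin _).ne)
      hc.aestronglyMeasurable (Eventually.of_forall fun x => ?_)
    rw [Real.norm_eq_abs, abs_mul]
    have h1 := abs_sub (Real.cos ((x / u).im)) (Real.cos (2 * (x / u).im))
    have h2 := Real.abs_cos_le_one ((x / u).im)
    have h3 := Real.abs_cos_le_one (2 * (x / u).im)
    norm_num
    linarith

theorem Jinf_re_pos : 0 < (∫ p, Jinf p ∂((volume : Measure ℂ).prod (volume : Measure ℂ))).re := by
  have h1 : (∫ p, Jinf p ∂((volume : Measure ℂ).prod (volume : Measure ℂ))).re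
      = ∫ p, (Jinf p).re ∂((volume : Measure ℂ).prod (volume : Measure ℂ)) :=
    (integral_re Jinf_int).symm
  have hri : Integrable (fun p => (Jinf p).re) ((volume : Measure ℂ).prod (volume : Measure ℂ)) :=
    Jinf_int.re
  have h2 : ∫ p, (Jinf p).re ∂((volume : Measure ℂ).prod (volume : Measure ℂ))
      = ∫ u : ℂ, annA.indicator (fun u => innerP u / ‖u‖ ^ 2) u := by
    rw [integral_prod_symm _ hri]
    congr 1
    funext u
    simp_rw [Jinf_re]
    by_cases hu : u ∈ annA
    · simp only [indicator_of_mem hu]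
      unfold innerP
      rw [← integral_div]
      congr 1
      funext x
      ring
    · simp only [indicator_of_notMem hu, mul_zero, integral_zero]
  have hint : Integrable (fun u : ℂ => annA.indicator (fun u => innerP u / ‖u‖ ^ 2) u) := by
    have h3 := hri.integral_prod_right
    refine h3.congr (Eventually.of_forall fun u => ?_)
    simp only
    simp_rw [Jinf_re]
    by_cases hu : u ∈ annA
    · simp only [indicator_of_mem hu]
      unfold innerP
      rw [← integral_div]
      congr 1
      funext x
      ring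
    · simp only [indicator_of_notMem hu, mul_zero, integral_zero]
  rw [h1, h2]
  rw [integral_pos_iff_support_of_nonneg _ hint]
  · have hopen : IsOpen {u : ℂ | ‖u‖ ∈ Ioo (2:ℝ) 4} := isOpen_Ioo.preimage continuous_norm
    have hne : {u : ℂ | ‖u‖ ∈ Ioo (2:ℝ) 4}.Nonempty := ⟨3, by simp; norm_num⟩
    refine lt_of_lt_of_le (hopen.measure_pos volume hne) (measure_mono ?_)
    intro u hu
    have hu' : u ∈ annA := ⟨hu.1.le, hu.2.le⟩
    rw [Function.mem_support, indicator_of_mem hu']
    have h4 := innerP_pos hu'
    have h5 : (0:ℝ) < ‖u‖ := by linarith [hu.1]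
    positivity
  · intro u
    simp only [Pi.zero_apply]
    by_cases hu' : u ∈ annA
    · rw [indicator_of_mem hu']
      have h4 := innerP_pos hu'
      positivity
    · rw [indicator_of_notMem hu']

end Pool.Agent.H805R3.Rough
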