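import Mathlib
import Pool.Agent.H805R3.GamPos

set_option autoImplicit false

open MeasureTheory Set Real Filter Topology
open scoped ENNReal NNReal ComplexConjugate

namespace Pool.Agent.H805R3.Rough

lemma swap_int {K : ℂ → ℂ} (hK : Measurable K)
    (hKi : ∀ b : ℝ, IntegrableOn K {y : ℂ | 1 ≤ ‖y‖ ∧ ‖y‖ ≤ b})
    {F : ℂ → ℂ} (hF : Measurable F) (hFb : ∀ w, ‖F w‖ ≤ 1) {R : ℝ}
    (hF2 : ∀ w, ‖w‖ < 2 → F w = 0) (hFR : ∀ w, R < ‖w‖ → F w = 0) :
    Integrable (fun p : ℂ × ℂ => (tf p.1 : ℂ) * (K p.2 * F (p.1 - p.2)))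
      ((volume : Measure ℂ).prod (volume : Measure ℂ)) := by
  have hm : MeasurableSet {y : ℂ | 1 ≤ ‖y‖ ∧ ‖y‖ ≤ R + 1} :=
    (measurableSet_le measurable_const measurable_norm).inter
      (measurableSet_le measurable_norm measurable_const)
  have h1 : Integrable (fun y : ℂ => {y : ℂ | 1 ≤ ‖y‖ ∧ ‖y‖ ≤ R + 1}.indicator K y) :=
    (hKi (R+1)).integrable_indicator hm
  have h2 : Integrable (fun x : ℂ => (tf x : ℂ)) := tf_int.ofReal
  have h3 := h2.mul_prod h1
  refine h3.mono ?_ (Eventually.of_forall ?_)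
  · have e1 : Measurable (fun p : ℂ × ℂ => (tf p.1 : ℂ)) :=
      Complex.measurable_ofReal.comp (tf_meas.comp measurable_fst)
    have e2 : Measurable (fun p : ℂ × ℂ => K p.2) := hK.comp measurable_snd
    have e3 : Measurable (fun p : ℂ × ℂ => F (p.1 - p.2)) :=
      hF.comp (measurable_fst.sub measurable_snd)
    exact (e1.mul (e2.mul e3)).aestronglyMeasurable
  · rintro ⟨x, y⟩
    simp only
    by_cases hx : ‖x‖ < 1
    swap
    · have : tf x = 0 := tf_supp (not_lt.1 hx)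
      simp [this]
    by_cases hF0 : F (x - y) = 0
    · rw [hF0, mul_zero, mul_zero, norm_zero]; positivity
    · have h4 : 2 ≤ ‖x - y‖ := by
        by_contra h; exact hF0 (hF2 _ (not_le.1 h))
      have h5 : ‖x - y‖ ≤ R := by
        by_contra h; exact hF0 (hFR _ (not_le.1 h))
      have h6 : y ∈ {y : ℂ | 1 ≤ ‖y‖ ∧ ‖y‖ ≤ R + 1} := by
        have h7 := norm_sub_norm_le y x
        have h8 := norm_sub_le x y
        rw [norm_sub_rev] at h7
        constructor <;> linarith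
      rw [indicator_of_mem h6, norm_mul, norm_mul, norm_mul]
      have h9 := hFb (x - y)
      calc ‖(tf x : ℂ)‖ * (‖K y‖ * ‖F (x - y)‖) ≤ ‖(tf x : ℂ)‖ * (‖K y‖ * 1) := by gcongr
        _ = _ := by ring

lemma swap_eq {K : ℂ → ℂ} (hK : Measurable K)
    (hKi : ∀ b : ℝ, IntegrableOn K {y : ℂ | 1 ≤ ‖y‖ ∧ ‖y‖ ≤ b})
    {F : ℂ → ℂ} (hF : Measurable F) (hFb : ∀ w, ‖F w‖ ≤ 1) {R : ℝ}
    (hF2 : ∀ w, ‖w‖ < 2 → F w = 0) (hFR : ∀ w, R < ‖w‖ → F w = 0) :
    ∫ x, (tf x : ℂ) * ∫ y, K y * F (x - y) = ∫ y, K y * ∫ x, (tf x : ℂ) * F (x - y) := by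
  have h := integral_integral_swap (f := fun x y => (tf x : ℂ) * (K y * F (x - y)))
    (μ := (volume : Measure ℂ)) (ν := (volume : Measure ℂ))
    (by simpa [Function.uncurry_def] using swap_int hK hKi hF hFb hF2 hFR)
  simp_rw [integral_const_mul] at h
  rw [h]
  congr 1
  funext y
  rw [← integral_const_mul]
  congr 1
  funext x
  ring

lemma rk_intOn (N : ℕ) (b : ℝ) : IntegrableOn (rk N) {y : ℂ | 1 ≤ ‖y‖ ∧ ‖y‖ ≤ b} := by
  have hm : MeasurableSet {y : ℂ | 1 ≤ ‖y‖ ∧ ‖y‖ ≤ b} :=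
    (measurableSet_le measurable_const measurable_norm).inter
      (measurableSet_le measurable_norm measurable_const)
  have hfin : volume {y : ℂ | 1 ≤ ‖y‖ ∧ ‖y‖ ≤ b} < ⊤ := by
    refine lt_of_le_of_lt (measure_mono (t := Metric.closedBall (0:ℂ) b) ?_)
      measure_closedBall_lt_top
    intro u hu
    simpa using hu.2
  refine Integrable.mono' (integrableOn_const (C := (1:ℝ)) hfin.ne)
    (rk_meas N).aestronglyMeasurable ?_
  filter_upwards [ae_restrict_mem hm] with y hy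
  refine (rk_norm N y).trans ?_
  rw [div_le_one (by have := hy.1; positivity)]
  have := hy.1
  nlinarith

lemma fc_two {N : ℕ} (hN : 1 ≤ N) (w : ℂ) (hw : ‖w‖ < 2) : fc N w = 0 := by
  apply fc_supp
  intro h
  have h1 : (1:ℝ) ≤ N := by exact_mod_cast hN
  have := h.1
  linarith

lemma fc_far {N : ℕ} (w : ℂ) (hw : 4 * (N:ℝ) < ‖w‖) : fc N w = 0 := by
  apply fc_supp
  intro h
  have := h.2
  linarith

theorem gamma_eq {N : ℕ} (hN : 1 ≤ N) :
    ∫ y, rk N y * psi N y = ∫ p, JN N p ∂((volume : Measure ℂ).prod (volume : Measure ℂ)) := by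
  have hNr : (0:ℝ) < (N:ℝ) := by exact_mod_cast hN
  have h1 := swap_eq (rk_meas N) (rk_intOn N) (fc_meas N) (fc_norm N)
    (R := 4 * N) (fc_two hN) (fc_far)
  unfold psi
  rw [← h1, integral_prod _ (JN_int hN)]
  congr 1
  funext x
  unfold JN
  simp only
  rw [integral_const_mul]
  congr 1
  have h2 : ∫ y, rk N y * fc N (x - y) = ∫ w, rk N (x - w) * fc N w := by
    rw [← integral_sub_left_eq_self (fun y => rk N y * fc N (x - y)) volume x]
    congr 1
    funext w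
    rw [sub_sub_cancel]
  rw [h2]
  have h3 := Measure.integral_comp_smul (volume : Measure ℂ)
    (fun w => rk N (x - w) * fc N w) (N:ℝ)
  rw [Complex.finrank_real_complex] at h3
  have h4 : ∀ u : ℂ, ((N:ℝ) • u) = (N:ℂ) * u := by
    intro u; rw [Complex.real_smul]; push_cast; rfl
  simp_rw [h4] at h3
  have h5 : ∫ u, (N:ℂ)^2 * rk N (x - N * u) * fc N (N * u)
      = (N:ℂ)^2 * ∫ u, rk N (x - N * u) * fc N (N * u) := by
    rw [← integral_const_mul]
    congr 1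
    funext u
    ring
  rw [h5, h3, abs_of_nonneg (by positivity), Complex.real_smul, ← mul_assoc]
  have h6 : (N:ℂ)^2 * ((((N:ℝ)^2)⁻¹ : ℝ) : ℂ) = 1 := by
    push_cast
    have : (N:ℂ) ≠ 0 := by exact_mod_cast hNr.ne'
    field_simp
  rw [h6, one_mul]

/-- lower bound for the diagonal terms -/
theorem gamma_lower : ∃ c : ℝ, 0 < c ∧ ∃ M : ℕ, 1 ≤ M ∧ ∀ m : ℕ, M ≤ m →
    c ≤ (∫ y, rk (2*m) y * psi (2*m) y).re := by
  have h1 := gamma_tendsto
  have h2 := Jinf_re_pos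
  set c0 := (∫ p, Jinf p ∂((volume : Measure ℂ).prod (volume : Measure ℂ))).re with hc0
  have h3 := (Complex.continuous_re.tendsto _).comp h1
  have h4 : ∀ᶠ m : ℕ in atTop, c0 / 2 <
      (∫ p, JN (2 * (m + 1)) p ∂((volume : Measure ℂ).prod (volume : Measure ℂ))).re :=
    h3.eventually (lt_mem_nhds (by linarith : c0 / 2 < c0))
  obtain ⟨M, hM⟩ := eventually_atTop.1 h4
  refine ⟨c0/2, by linarith, M + 1, by omega, fun m hm => ?_⟩
  have h5 := hM (m - 1) (by omega)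
  have h6 : 2 * (m - 1 + 1) = 2 * m := by omega
  rw [h6] at h5
  rw [gamma_eq (by omega)]
  exact h5.le

end Pool.Agent.H805R3.Rough
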