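import Mathlib
import Pool.Agent.H805R3.Swap
import Pool.Agent.H805R3.PV
import Pool.Agent.H805R3.Om

set_option autoImplicit false

open MeasureTheory Set Real Filter Topology
open scoped ENNReal NNReal ComplexConjugate

namespace Pool.Agent.H805R3.Rough

lemma fc_diff {N : ℕ} (hN : 1 ≤ N) {z : ℂ} (h1 : ‖z‖ ≠ 2 * (N:ℝ)) (h2 : ‖z‖ ≠ 4 * (N:ℝ)) :
    DifferentiableAt ℝ (fc N) z := by
  have hNr : (1:ℝ) ≤ N := by exact_mod_cast hN
  by_cases h : ‖z‖ ∈ Ioo (2 * (N:ℝ)) (4 * N)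
  · have hz : z ≠ 0 := by
      intro h0
      rw [h0, norm_zero] at h
      linarith [h.1]
    have hopen : IsOpen {w : ℂ | ‖w‖ ∈ Ioo (2 * (N:ℝ)) (4 * N)} := isOpen_Ioo.preimage continuous_norm
    have hev : fc N =ᶠ[𝓝 z] fun w => (conj w / ‖w‖) ^ N := by
      filter_upwards [hopen.mem_nhds h] with w hw
      exact indicator_of_mem (show w ∈ {w : ℂ | ‖w‖ ∈ Icc (2 * (N:ℝ)) (4 * N)} from
        ⟨hw.1.le, hw.2.le⟩) _
    refine DifferentiableAt.congr_of_eventuallyEq ?_ hev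
    have hn : DifferentiableAt ℝ (fun w : ℂ => ‖w‖) z := DifferentiableAt.norm ℝ differentiableAt_id hz
    have hn2 : DifferentiableAt ℝ (fun w : ℂ => ((‖w‖ : ℝ) : ℂ)) z :=
      Complex.ofRealCLM.differentiableAt.comp z hn
    have hcj : DifferentiableAt ℝ (fun w : ℂ => conj w) z := Complex.conjCLE.differentiableAt
    have hinv : DifferentiableAt ℝ (fun w : ℂ => ‖w‖⁻¹) z := hn.inv (by simpa using hz)
    have hsm : DifferentiableAt ℝ (fun w : ℂ => ‖w‖⁻¹ • conj w) z := hinv.smul hcj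
    have he : (fun w : ℂ => (conj w / ‖w‖) ^ N) = fun w : ℂ => (‖w‖⁻¹ • conj w) ^ N := by
      funext w
      rw [Complex.real_smul, Complex.ofReal_inv, div_eq_inv_mul]
    rw [he]
    exact hsm.pow N
  · have hcl : IsOpen {w : ℂ | ‖w‖ ∉ Icc (2 * (N:ℝ)) (4 * N)} :=
      (isClosed_Icc.preimage continuous_norm).isOpen_compl
    have hz : z ∈ {w : ℂ | ‖w‖ ∉ Icc (2 * (N:ℝ)) (4 * N)} := by
      intro h'
      exact h ⟨lt_of_le_of_ne h'.1 (Ne.symm h1), lt_of_le_of_ne h'.2 h2⟩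
    have hev : fc N =ᶠ[𝓝 z] fun _ => 0 := by
      filter_upwards [hcl.mem_nhds hz] with w hw
      exact fc_supp hw
    exact (differentiableAt_const _).congr_of_eventuallyEq hev

lemma ae_norm_ne (ρ : ℝ) : ∀ᵐ z : ℂ, ‖z‖ ≠ ρ := by
  have h := Measure.addHaar_sphere (volume : Measure ℂ) 0 ρ
  rw [ae_iff]
  refine measure_mono_null ?_ h
  intro z hz
  simpa using hz

/-- the frequencies -/
def NN (M : ℕ) (j : ℕ) : ℕ := 2 * (M * 3 ^ j)

/-- the complex extremiser -/
noncomputable def FF (M J : ℕ) (w : ℂ) : ℂ := ∑ j ∈ Finset.range J, fc (NN M j) w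

lemma NN_succ (M j : ℕ) : NN M (j+1) = 3 * NN M j := by unfold NN; rw [pow_succ]; ring

lemma NN_pos {M : ℕ} (hM : 1 ≤ M) (j : ℕ) : 1 ≤ NN M j := by
  unfold NN
  have : 1 ≤ 3 ^ j := Nat.one_le_pow _ _ (by norm_num)
  nlinarith

lemma NN_mono {M : ℕ} (hM : 1 ≤ M) : StrictMono (NN M) := by
  refine strictMono_nat_of_lt_succ fun j => ?_
  rw [NN_succ]
  have := NN_pos hM j
  omega

lemma NN_lt {M : ℕ} (hM : 1 ≤ M) {i j : ℕ} (h : i < j) : 4 * NN M i < 2 * NN M j := by
  have h1 : NN M (i+1) ≤ NN M j := (NN_mono hM).monotone h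
  rw [NN_succ] at h1
  have := NN_pos hM i
  omega

lemma FF_meas (M J : ℕ) : Measurable (FF M J) := by
  unfold FF
  exact Finset.measurable_fun_sum _ fun j _ => fc_meas _

lemma FF_norm {M : ℕ} (hM : 1 ≤ M) (J : ℕ) (w : ℂ) : ‖FF M J w‖ ≤ 1 := by
  unfold FF
  by_cases h : ∃ j ∈ Finset.range J, fc (NN M j) w ≠ 0
  · obtain ⟨j, hj, hne⟩ := h
    rw [Finset.sum_eq_single_of_mem j hj]
    · exact fc_norm _ _
    · intro i _ hij
      by_contra hi
      have h1 : ‖w‖ ∈ Icc (2 * ((NN M j : ℕ):ℝ)) (4 * (NN M j : ℕ)) := by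
        by_contra h; exact hne (fc_supp h)
      have h2 : ‖w‖ ∈ Icc (2 * ((NN M i : ℕ):ℝ)) (4 * (NN M i : ℕ)) := by
        by_contra h; exact hi (fc_supp h)
      rcases lt_or_gt_of_ne hij with h | h
      · have h3 : (4 * (NN M i : ℕ) : ℝ) < 2 * (NN M j : ℕ) := by exact_mod_cast NN_lt hM h
        linarith [h1.1, h2.2]
      · have h3 : (4 * (NN M j : ℕ) : ℝ) < 2 * (NN M i : ℕ) := by exact_mod_cast NN_lt hM h
        linarith [h2.1, h1.2]
  · push Not at h
    rw [Finset.sum_eq_zero h]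
    simp

lemma FF_two {M : ℕ} (hM : 1 ≤ M) (J : ℕ) (w : ℂ) (hw : ‖w‖ < 2) : FF M J w = 0 :=
  Finset.sum_eq_zero fun j _ => fc_two (NN_pos hM j) w hw

lemma FF_far {M : ℕ} (hM : 1 ≤ M) (J : ℕ) (w : ℂ) (hw : 4 * ((NN M J : ℕ):ℝ) < ‖w‖) :
    FF M J w = 0 := by
  refine Finset.sum_eq_zero fun j hj => fc_far w ?_
  have h1 : NN M j ≤ NN M J := (NN_mono hM).monotone (Finset.mem_range.1 hj).le
  have h2 : ((NN M j : ℕ):ℝ) ≤ (NN M J : ℕ) := by exact_mod_cast h1
  linarith

lemma FF_diff {M : ℕ} (hM : 1 ≤ M) (J : ℕ) :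
    ∀ᵐ z : ℂ, DifferentiableAt ℝ (fun w => (FF M J w).re) z := by
  have h : ∀ᵐ z : ℂ, ∀ j : ℕ, ‖z‖ ≠ 2 * ((NN M j : ℕ):ℝ) ∧ ‖z‖ ≠ 4 * ((NN M j : ℕ):ℝ) := by
    rw [ae_all_iff]
    intro j
    exact (ae_norm_ne _).and (ae_norm_ne _)
  filter_upwards [h] with z hz
  have h1 : DifferentiableAt ℝ (FF M J) z := by
    unfold FF
    exact DifferentiableAt.fun_sum fun j _ => fc_diff (NN_pos hM j) (hz j).1 (hz j).2
  exact Complex.reCLM.differentiableAt.comp z h1

lemma lip_of_diff {f : ℂ → ℝ} {x : ℂ} (h : DifferentiableAt ℝ f x) :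
    ∃ δ L : ℝ, 0 < δ ∧ ∀ y, ‖y‖ ≤ δ → |f (x - y) - f x| ≤ L * ‖y‖ := by
  obtain ⟨L, hL⟩ := h.isBigO_sub.bound
  obtain ⟨δ, hδ, hL'⟩ := Metric.eventually_nhds_iff.1 hL
  refine ⟨δ / 2, L, by linarith, fun y hy => ?_⟩
  have h1 := @hL' (x - y) (by
    rw [dist_eq_norm, sub_sub_cancel_left, norm_neg]; linarith)
  rwa [sub_sub_cancel_left, norm_neg, Real.norm_eq_abs] at h1

theorem main_C : ∃ ω : ℝ → ℝ, Measurable ω ∧ MemLp ω 2 (volume.restrict (Ioo (-π) π)) ∧
    (∫ θ in Ioo (-π) π, ω θ = 0) ∧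
    ∀ C : ℝ, ∃ f g : ℂ → ℝ, Measurable f ∧ (∃ R : ℝ, ∀ z, R < ‖z‖ → f z = 0) ∧
      (∀ z, |f z| ≤ 1) ∧
      (∀ᵐ x : ℂ, Tendsto (fun ε : ℝ => ∫ y in {y : ℂ | ε < ‖y‖}, ker ω y * f (x - y))
        (𝓝[>] 0) (𝓝 (g x))) ∧
      (IntegrableOn g (Metric.ball 0 1) →
        C < ⨍ x in Metric.ball (0:ℂ) 1, |g x - ⨍ y in Metric.ball (0:ℂ) 1, g y|) := by
  obtain ⟨c, hc, M, hM, hgam⟩ := gamma_lower
  obtain ⟨ω, hω, hω2, hω0, hωj⟩ := exists_omega (NN M) (NN_mono hM) (fun j => NN_pos hM j)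
  refine ⟨ω, hω, hω2, hω0, fun C => ?_⟩
  -- choose the number of terms
  have hdiv := Real.tendsto_sum_range_one_div_nat_succ_atTop
  obtain ⟨J, hJ⟩ := (hdiv.eventually (eventually_gt_atTop (C * (6 * π) / c))).exists
  set F := FF M J with hF
  set f : ℂ → ℝ := fun w => (F w).re with hf
  have hfm : Measurable f := Complex.measurable_re.comp (FF_meas M J)
  have hf1 : ∀ z, |f z| ≤ 1 := fun z => (Complex.abs_re_le_norm _).trans (FF_norm hM J z)
  have hfR : ∀ z, 4 * ((NN M J : ℕ):ℝ) < ‖z‖ → f z = 0 := by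
    intro z hz
    simp only [hf, hF, FF_far hM J z hz, Complex.zero_re]
  have hf2 : ∀ z, ‖z‖ < 2 → f z = 0 := by
    intro z hz
    simp only [hf, hF, FF_two hM J z hz, Complex.zero_re]
  have hex : ∀ᵐ x : ℂ, ∃ l : ℝ, Tendsto
      (fun ε : ℝ => ∫ y in {y : ℂ | ε < ‖y‖}, ker ω y * f (x - y)) (𝓝[>] 0) (𝓝 l) := by
    filter_upwards [FF_diff hM J] with x hx
    obtain ⟨δ, L, hδ, hL⟩ := lip_of_diff hx
    exact pv_exists hω hω2 hω0 hfm hf1 hfR x hδ hL
  classical
  set g : ℂ → ℝ := fun x => if h : ∃ l : ℝ, Tendsto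
      (fun ε : ℝ => ∫ y in {y : ℂ | ε < ‖y‖}, ker ω y * f (x - y)) (𝓝[>] 0) (𝓝 l)
      then h.choose else 0 with hg
  have hgt : ∀ᵐ x : ℂ, Tendsto
      (fun ε : ℝ => ∫ y in {y : ℂ | ε < ‖y‖}, ker ω y * f (x - y)) (𝓝[>] 0) (𝓝 (g x)) := by
    filter_upwards [hex] with x hx
    simp only [hg, dif_pos hx]
    exact hx.choose_spec
  refine ⟨f, g, hfm, ⟨_, hfR⟩, hf1, hgt, fun hgint => ?_⟩
  -- the value of g inside the unit ball
  have hgball : ∀ᵐ x : ℂ, x ∈ Metric.ball (0:ℂ) 1 → g x = ∫ y, ker ω y * f (x - y) := by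
    filter_upwards [hgt] with x hx hxb
    have hx1 : ‖x‖ < 1 := by simpa using hxb
    refine tendsto_nhds_unique hx ?_
    refine Tendsto.congr' ?_ tendsto_const_nhds
    have : ∀ᶠ ε in 𝓝[>] (0:ℝ), ε < 1 :=
      eventually_nhdsWithin_of_eventually_nhds (eventually_lt_nhds one_pos)
    filter_upwards [this] with ε hε
    symm
    apply setIntegral_eq_integral_of_forall_compl_eq_zero
    intro y hy
    have hy' : ‖y‖ ≤ ε := not_lt.1 hy
    have : f (x - y) = 0 := by
      apply hf2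
      have := norm_sub_le x y
      linarith
    rw [this, mul_zero]
  -- complexify
  have hkm : Measurable (fun y => (ker ω y : ℂ)) := Complex.measurable_ofReal.comp (ker_meas hω)
  have hki : ∀ b : ℝ, IntegrableOn (fun y => (ker ω y : ℂ)) {y : ℂ | 1 ≤ ‖y‖ ∧ ‖y‖ ≤ b} :=
    fun b => (ker_intOn_annulus hω hω2 one_pos).ofReal
  have hsw := swap_eq hkm hki (FF_meas M J) (FF_norm hM J) (R := 4 * ((NN M J : ℕ):ℝ))
    (FF_two hM J) (FF_far hM J)
  have hswi := swap_int hkm hki (FF_meas M J) (FF_norm hM J) (R := 4 * ((NN M J : ℕ):ℝ))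
    (FF_two hM J) (FF_far hM J)
  have hrhs : ∫ y, (ker ω y : ℂ) * ∫ x, (tf x : ℂ) * FF M J (x - y)
      = ∑ j ∈ Finset.range J, (1 / (2 * ((j:ℂ) + 1))) * ∫ y, rk (NN M j) y * psi (NN M j) y := by
    have e1 : ∀ y, (ker ω y : ℂ) * ∫ x, (tf x : ℂ) * FF M J (x - y)
        = ∑ j ∈ Finset.range J, (ker ω y : ℂ) * psi (NN M j) y := by
      intro y
      rw [← Finset.mul_sum]
      congr 1
      unfold FF psi
      simp_rw [Finset.mul_sum]
      rw [integral_finsetSum]
      intro j _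
      refine (tf_int.ofReal).mul_bdd (c := 1) ?_ ?_
      · exact ((fc_meas _).comp (measurable_id.sub_const y)).aestronglyMeasurable
      · exact Eventually.of_forall fun x => fc_norm _ _
    simp_rw [e1]
    rw [integral_finsetSum]
    · refine Finset.sum_congr rfl fun j _ => ?_
      rw [pairing, hωj j]
      congr 1
      have hpi : (π : ℂ) ≠ 0 := by exact_mod_cast Real.pi_ne_zero
      have hj : ((j:ℂ) + 1) ≠ 0 := by exact_mod_cast (Nat.succ_ne_zero j)
      field_simp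
    · intro j _
      have h1 := swap_int hkm hki (fc_meas (NN M j)) (fc_norm (NN M j))
        (R := 4 * ((NN M j : ℕ):ℝ)) (fc_two (NN_pos hM j)) (fc_far)
      have h2 := h1.integral_prod_right
      refine h2.congr (Eventually.of_forall fun y => ?_)
      simp only
      unfold psi
      rw [← integral_const_mul]
      congr 1
      funext x
      ring
  have hlow : c / 2 * ∑ j ∈ Finset.range J, 1 / ((j:ℝ) + 1) ≤
      (∫ x, (tf x : ℂ) * ∫ y, (ker ω y : ℂ) * FF M J (x - y)).re := by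
    rw [hsw, hrhs, Complex.re_sum, Finset.mul_sum]
    refine Finset.sum_le_sum fun j _ => ?_
    have h1 : (1 / (2 * ((j:ℂ) + 1))) = ((1 / (2 * ((j:ℝ) + 1)) : ℝ) : ℂ) := by push_cast; rfl
    rw [h1, Complex.re_ofReal_mul]
    have h2 : c ≤ (∫ y, rk (NN M j) y * psi (NN M j) y).re := by
      unfold NN
      apply hgam
      exact Nat.le_mul_of_pos_right _ (by positivity)
    calc c / 2 * (1 / ((j:ℝ) + 1)) = (1 / (2 * ((j:ℝ) + 1))) * c := by
          field_simp
      _ ≤ _ := by gcongr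
  have hreal : (∫ x, (tf x : ℂ) * ∫ y, (ker ω y : ℂ) * FF M J (x - y)).re
      = ∫ x in Metric.ball (0:ℂ) 1, g x * tf x := by
    have hli : Integrable (fun x => (tf x : ℂ) * ∫ y, (ker ω y : ℂ) * FF M J (x - y)) := by
      have := hswi.integral_prod_left
      refine this.congr (Eventually.of_forall fun x => ?_)
      simp only
      rw [integral_const_mul]
    have e1 : (∫ x, (tf x : ℂ) * ∫ y, (ker ω y : ℂ) * FF M J (x - y)).re
        = ∫ x, ((tf x : ℂ) * ∫ y, (ker ω y : ℂ) * FF M J (x - y)).re := (integral_re hli).symm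
    rw [e1, ← integral_indicator measurableSet_ball]
    refine integral_congr_ae ?_
    filter_upwards [hgball] with x hx
    by_cases hxb : x ∈ Metric.ball (0:ℂ) 1
    · rw [indicator_of_mem hxb, hx hxb, Complex.re_ofReal_mul, mul_comm]
      congr 1
      have hx1 : ‖x‖ < 1 := by simpa using hxb
      have hin : Integrable (fun y => (ker ω y : ℂ) * FF M J (x - y)) := by
        have hm : MeasurableSet {y : ℂ | 1 ≤ ‖y‖ ∧ ‖y‖ ≤ 4 * ((NN M J : ℕ):ℝ) + 1} :=
          (measurableSet_le measurable_const measurable_norm).inter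
            (measurableSet_le measurable_norm measurable_const)
        have h1 : Integrable (fun y : ℂ => {y : ℂ | 1 ≤ ‖y‖ ∧ ‖y‖ ≤ 4 * ((NN M J : ℕ):ℝ) + 1}.indicator
            (fun y => (ker ω y : ℂ)) y) := (hki _).integrable_indicator hm
        have h2 : Integrable (fun y : ℂ => {y : ℂ | 1 ≤ ‖y‖ ∧ ‖y‖ ≤ 4 * ((NN M J : ℕ):ℝ) + 1}.indicator
            (fun y => (ker ω y : ℂ)) y * FF M J (x - y)) := by
          refine h1.mul_bdd (c := 1) ?_ ?_
          · exact ((FF_meas _ _).comp (measurable_const.sub measurable_id)).aestronglyMeasurable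
          · exact Eventually.of_forall fun y => FF_norm hM J _
        refine h2.congr (Eventually.of_forall fun y => ?_)
        simp only
        by_cases hF0 : FF M J (x - y) = 0
        · rw [hF0, mul_zero, mul_zero]
        · have h4 : 2 ≤ ‖x - y‖ := by
            by_contra h; exact hF0 (FF_two hM J _ (not_le.1 h))
          have h5 : ‖x - y‖ ≤ 4 * ((NN M J : ℕ):ℝ) := by
            by_contra h; exact hF0 (FF_far hM J _ (not_le.1 h))
          have h6 : y ∈ {y : ℂ | 1 ≤ ‖y‖ ∧ ‖y‖ ≤ 4 * ((NN M J : ℕ):ℝ) + 1} := by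
            have h7 := norm_sub_norm_le y x
            have h8 := norm_sub_le x y
            rw [norm_sub_rev] at h7
            constructor <;> linarith
          rw [indicator_of_mem h6]
      have e2 : (∫ y, (ker ω y : ℂ) * FF M J (x - y)).re
          = ∫ y, ((ker ω y : ℂ) * FF M J (x - y)).re := (integral_re hin).symm
      rw [e2]
      congr 1
      funext y
      rw [Complex.re_ofReal_mul]
    · rw [indicator_of_notMem hxb]
      have : tf x = 0 := tf_supp (by simpa using hxb)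
      simp [this]
  rw [hreal] at hlow
  -- the oscillation
  set B := Metric.ball (0:ℂ) 1 with hB
  set a := ⨍ y in B, g y with ha
  have htb : ∫ x in B, tf x = 0 := by
    rw [setIntegral_eq_integral_of_forall_compl_eq_zero, tf_zero]
    intro x hx
    exact tf_supp (by simpa [hB] using hx)
  have hgtf : IntegrableOn (fun x => g x * tf x) B := by
    refine Integrable.mul_bdd (c := 3) hgint tf_meas.aestronglyMeasurable ?_
    exact Eventually.of_forall fun x => by rw [Real.norm_eq_abs]; exact tf_bound x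
  have hsub : IntegrableOn (fun x => g x - a) B :=
    hgint.sub (integrableOn_const (ball_fin 1).ne)
  have h1 : ∫ x in B, g x * tf x = ∫ x in B, (g x - a) * tf x := by
    have : ∀ x, (g x - a) * tf x = g x * tf x - a * tf x := fun x => by ring
    simp_rw [this]
    rw [integral_sub hgtf ((tf_intOn B).const_mul a), integral_const_mul, htb]
    ring
  have h2 : ∫ x in B, (g x - a) * tf x ≤ 3 * ∫ x in B, |g x - a| := by
    rw [← integral_const_mul]
    refine integral_mono ?_ (hsub.abs.const_mul 3) fun x => ?_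
    · refine Integrable.mul_bdd (c := 3) hsub tf_meas.aestronglyMeasurable ?_
      exact Eventually.of_forall fun x => by rw [Real.norm_eq_abs]; exact tf_bound x
    · simp only
      have h3 := tf_bound x
      have h4 : (g x - a) * tf x ≤ |(g x - a) * tf x| := le_abs_self _
      rw [abs_mul] at h4
      have h5 : |g x - a| * |tf x| ≤ |g x - a| * 3 :=
        mul_le_mul_of_nonneg_left h3 (abs_nonneg _)
      linarith
  have hvolB : (volume : Measure ℂ).real B = π := by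
    unfold Measure.real
    rw [hB, Complex.volume_ball]
    simp
  have h3 : ⨍ x in B, |g x - a| = π⁻¹ * ∫ x in B, |g x - a| := by
    rw [setAverage_eq, hvolB, smul_eq_mul]
  rw [h3]
  rw [h1] at hlow
  have h4 : c / 2 * ∑ j ∈ Finset.range J, 1 / ((j:ℝ) + 1) ≤ 3 * ∫ x in B, |g x - a| :=
    hlow.trans h2
  have hpi := Real.pi_pos
  have h5 : C * (6 * π) < c * ∑ j ∈ Finset.range J, 1 / ((j:ℝ) + 1) := by
    rw [div_lt_iff₀ hc] at hJ
    linarith
  rw [lt_inv_mul_iff₀ hpi]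
  nlinarith

end Pool.Agent.H805R3.Rough
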